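import Mathlib

/-!
# Kac polynomials: interface of the disproof of the almost sure limit (S19518)

Every `S_X : Prop` below is one lemma of the plan, with its paper proof in the docstring.
-/

set_option autoImplicit false
open MeasureTheory ProbabilityTheory

namespace Pool.Agent.H614.Kac

/-- The law of a sequence of independent standard normal variables. -/
noncomputable def mu : Measure (ℕ → ℝ) :=
  Measure.infinitePi (fun _ : ℕ => gaussianReal 0 1)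

instance instProbMu : IsProbabilityMeasure mu := by unfold mu; infer_instance

/-- The linear form with weights `w` on the first `M` coordinates. -/
def lin (M : ℕ) (w ω : ℕ → ℝ) : ℝ := ∑ k ∈ Finset.range M, w k * ω k

/-- Cameron-Martin identity for finitely many coordinates.
Proof: both sides are values at `S` of probability measures; the left one is
`mu.withDensity Z`, the right one is the image of `mu` under `ω ↦ ω + h`, which by
`Measure.infinitePi_map_pi` and `gaussianReal_map_add_const` is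
`infinitePi (fun k => gaussianReal (h k) 1)`. By `Measure.eq_infinitePi` it is enough to compare
boxes `{ω | ∀ k ∈ s, ω k ∈ t k}` with `s` a finite set; there the integral of
`Z = ∏ k<M, exp (h k * ω k - h k ^ 2 / 2)` is a product over the coordinates
(`lintegral_infinitePi_of_piFinset` or independence of the coordinates), and in one dimension
`exp (h x - h^2/2) * gaussianPDF 0 1 x = gaussianPDF h 1 x`. -/
def S_shift : Prop :=
  ∀ (M : ℕ) (h : ℕ → ℝ), (∀ k, M ≤ k → h k = 0) → ∀ S : Set (ℕ → ℝ), MeasurableSet S →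
    ∫⁻ ω in S, ENNReal.ofReal (Real.exp (lin M h ω - (∑ k ∈ Finset.range M, h k ^ 2) / 2)) ∂mu
      = mu {ω | ω + h ∈ S}

/-- Second moment bound (you may use `S_shift` as a hypothesis). With
`Z i = exp (lin M (h i) ω - |h i|^2/2)` one has `∫ Z i * Z j = exp ⟨h i, h j⟩`
(as `lin M w` has law `N(0, |w|^2)`, its exponential moment is `exp (|w|^2/2)`), so
`∫ (∑ i<K, Z i)^2 ≤ K * exp H + K^2 ≤ 2 K^2`; by `S_shift`
`K p ≤ ∑ i, ∫_S Z i = ∫_S ∑ Z i ≤ sqrt (∫ (∑ Z i)^2) * sqrt (mu S) ≤ sqrt 2 K sqrt (mu S)`. -/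
def S_second : Prop :=
  ∀ (M K : ℕ) (h : ℕ → ℕ → ℝ) (H p : ℝ) (S : Set (ℕ → ℝ)),
    (∀ i k, M ≤ k → h i k = 0) →
    (∀ i < K, ∑ k ∈ Finset.range M, h i k ^ 2 ≤ H) →
    (∀ i < K, ∀ j < K, i ≠ j → ∑ k ∈ Finset.range M, h i k * h j k = 0) →
    0 < K → Real.exp H ≤ K → 0 ≤ p → MeasurableSet S →
    (∀ i < K, p ≤ mu.real {ω | ω + h i ∈ S}) → p ^ 2 / 2 ≤ mu.real S

/-- Sign changes of two Gaussian linear forms with offsets.
Proof. `U = lin M u`, `V = lin M v` are jointly Gaussian and centered with variances `a`, `b` and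
covariance `c`. If `r = c / sqrt (a b)` and `s = sqrt (1 - r^2)` then
`(U / sqrt a, V / sqrt b)` has the law of `(X, r X + s Y)`, `X, Y` independent `N(0,1)`
(if `s > 0` take `Y = (V / sqrt b - r U / sqrt a) / s`: covariance zero gives independence;
if `s = 0` the bound without offsets is trivial). Sheppard:
`P (X > 0, r X + s Y < 0) = ∫_{x>0} φ x P (Y > κ x) dx` with `κ = r / s`; substituting `y = x w`,
`= ∫_{w > κ} ∫_{x > 0} x φ x φ (x w) dx dw = (1/2π) ∫_{w>κ} dw/(1+w^2) = (1/2π) (π/2 - arctan κ)`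
and `π/2 - arctan κ ≥ sin (π/2 - arctan κ) = cos (arctan κ) = 1/sqrt (1+κ^2) = s`.
By symmetry `P (U V < 0) ≥ s/π`. If `|U| > |m₁|`, `|V| > |m₂|` and `U V < 0` then
`(U+m₁)(V+m₂) < 0`, and `P (|U| ≤ |m|) ≤ 2 |m| / sqrt (2 π a) ≤ |m| / sqrt a`. -/
def S_pair : Prop :=
  ∀ (M : ℕ) (u v : ℕ → ℝ) (m₁ m₂ a b c : ℝ),
    a = ∑ k ∈ Finset.range M, u k ^ 2 → b = ∑ k ∈ Finset.range M, v k ^ 2 →
    c = ∑ k ∈ Finset.range M, u k * v k → 0 < a → 0 < b →
    Real.sqrt (1 - c ^ 2 / (a * b)) / Real.pi - |m₁| / Real.sqrt a - |m₂| / Real.sqrt b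
      ≤ mu.real {ω | (lin M u ω + m₁) * (lin M v ω + m₂) < 0}

/-- Value of the Kac polynomial of degree `n` at `x`. -/
def ev (n : ℕ) (ω : ℕ → ℝ) (x : ℝ) : ℝ := ∑ k ∈ Finset.range (n + 1), ω k * x ^ k

/-- Value of the reversed Kac polynomial of degree `n` at `y`:
`rv n ω y = y ^ n * ev n ω (1/y)` for `y ≠ 0`. -/
def rv (n : ℕ) (ω : ℕ → ℝ) (y : ℝ) : ℝ := ∑ k ∈ Finset.range (n + 1), ω k * y ^ (n - k)

/-- Number of sign changes of `F` between consecutive points `y t`, `y (t+1)`, `a ≤ t < b`. -/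
noncomputable def sc (F : ℝ → ℝ) (y : ℕ → ℝ) (a b : ℕ) : ℕ :=
  ((Finset.Ico a b).filter (fun t => F (y t) * F (y (t + 1)) < 0)).card

/-- Total number of sign changes used: inside `(0,1)` and `(-1,0)`, outside negative, outside
positive along `y`, and outside positive along the coarser grid `z`. -/
noncomputable def SC (n : ℕ) (ω : ℕ → ℝ) (y z : ℕ → ℝ) (a a' b j J : ℕ) : ℕ :=
  sc (ev n ω) y a b + sc (fun x => ev n ω (-x)) y a b + sc (fun x => rv n ω (-x)) y a b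
    + sc (rv n ω) y a' b + sc (rv n ω) z j J

/-- Sign changes bound the number of real roots from below.
Proof. The polynomial `P = ∑ C (ω k) * X^k` satisfies `P.eval x = ev n ω x`. If `P = 0` all terms
vanish. Otherwise each sign change gives by the intermediate value theorem a root of `P` in an
open interval, namely in `(y t, y (t+1)) ⊆ (0,1)`, in `(-y (t+1), -y t) ⊆ (-1,0)`, in
`(-1/y t, -1/y (t+1)) ⊆ (-∞,-1)`, in `(1/y (t+1), 1/y t) ⊆ (1, 1/y a']`, and in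
`(1/z (t+1), 1/z t) ⊆ (1/y a', ∞)`; for `y ≠ 0` one has `rv n ω y = y^n * ev n ω (1/y)`, so the
sign of `rv n ω y * rv n ω y'` is that of `ev n ω (1/y) * ev n ω (1/y')` when `y`, `y'` have the
same sign. All these open intervals are pairwise disjoint, so the roots are distinct, and
`roots.card ≥ roots.toFinset.card`. -/
def S_roots : Prop :=
  ∀ (n : ℕ) (ω y z : ℕ → ℝ) (a a' b j J : ℕ),
    StrictMono y → (∀ t, 0 < y t) → (∀ t, y t < 1) → StrictMono z → (∀ t, 0 < z t) →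
    (∀ t ≤ J, z t ≤ y a') → a ≤ a' →
    SC n ω y z a a' b j J ≤
      (∑ i ∈ Finset.range (n + 1), Polynomial.C (ω i) * Polynomial.X ^ i).roots.card

/-- The planted drift: `A (-1)^i / 8^i` on `[64^i, 2*64^i)`, `1 ≤ i ≤ J`, and `0` elsewhere. -/
noncomputable def plant (A : ℝ) (J k : ℕ) : ℝ :=
  ∑ i ∈ Finset.Icc 1 J, if 64 ^ i ≤ k ∧ k < 2 * 64 ^ i then A * (-1) ^ i / 8 ^ i else 0

/-- The blocks `[64^i, 2*64^i)` are disjoint, block `i` contributes `64^i * A^2 / 64^i = A^2`. -/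
def S_plant_sq : Prop :=
  ∀ (A : ℝ) (J L : ℕ), 2 * 64 ^ J ≤ L →
    ∑ k ∈ Finset.range L, plant A J k ^ 2 = A ^ 2 * J

/-- `∑ |plant| ≤ A ∑_{i=1}^J 64^i / 8^i = A ∑ 8^i ≤ (8/7) A 8^J`. -/
def S_plant_abs : Prop :=
  ∀ (A : ℝ) (J L : ℕ), 0 ≤ A →
    ∑ k ∈ Finset.range L, |plant A J k| ≤ 2 * A * 8 ^ J

/-- At negative points: `|∑_{k=64^i}^{2*64^i-1} (-y)^k| = |(-y)^{64^i} - (-y)^{2*64^i}|/(1+y) ≤ 2`
and `∑_{i≥1} 2 A / 8^i = 2 A / 7`. -/
def S_plant_neg : Prop :=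
  ∀ (A y : ℝ) (J L : ℕ), 0 ≤ A → 0 ≤ y → y ≤ 1 → 2 * 64 ^ J ≤ L →
    |∑ k ∈ Finset.range L, plant A J k * (-y) ^ k| ≤ 3 * A

/-- Sign pattern of the planted drift at `y = (16*64^j - 1)/(16*64^j + 1)`.
Write `z = 64^j`, `S_i = ∑_{k=64^i}^{2*64^i-1} y^k`; `1 - y = 2/(16 z+1)`, so
`2/(17 z) ≤ 1 - y ≤ 1/(8 z)`. Main term: `S_j ≥ z y^{2z} ≥ z (1 - 2z(1-y)) ≥ (3/4) z`
(Bernoulli). Lower: `S_i ≤ 64^i`, `∑_{1≤i<j} 8^{-i} 64^i ≤ 8^j/7`. Upper `i > j`:
`S_i ≤ y^{64^i}/(1-y) ≤ 1/((1+64^i (1-y)) (1-y)) ≤ 64^{-i} (17 z/2)^2`, hence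
`∑_{i>j} 8^{-i} S_i ≤ 72.25 z^2 ∑_{i>j} 512^{-i} ≤ (72.25/511) 8^j`.
Total `≥ (0.75 - 0.143 - 0.1415) A 8^j ≥ 0.46 A 8^j`. -/
def S_plant_pos : Prop :=
  ∀ (A : ℝ) (J L j : ℕ), 0 ≤ A → 1 ≤ j → j ≤ J → 2 * 64 ^ J ≤ L →
    46 / 100 * A * 8 ^ j ≤
      (-1) ^ j * ∑ k ∈ Finset.range L,
        plant A J k * ((16 * 64 ^ j - 1) / (16 * 64 ^ j + 1) : ℝ) ^ k

end Pool.Agent.H614.Kac
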