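import Mathlib
import Pool.Agent.H614.Kac.Defs

set_option autoImplicit false
open MeasureTheory ProbabilityTheory Finset

namespace Pool.Agent.H614.Kac

/-- The hyperbolic grid. -/
noncomputable def gy (q : ℝ) (t : ℕ) : ℝ := (1 - q ^ (t + 1)) / (1 + q ^ (t + 1))

section grid
variable {q : ℝ} (h0 : 0 < q) (h1 : q < 1)
include h0 h1

lemma qpow_pos (t : ℕ) : 0 < q ^ (t + 1) := pow_pos h0 _

lemma qpow_lt_one (t : ℕ) : q ^ (t + 1) < 1 := pow_lt_one₀ h0.le h1 (by omega)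

lemma gy_pos (t : ℕ) : 0 < gy q t := by
  have := qpow_pos h0 h1 t
  have := qpow_lt_one h0 h1 t
  unfold gy
  apply div_pos <;> linarith

lemma gy_lt_one (t : ℕ) : gy q t < 1 := by
  have := qpow_pos h0 h1 t
  unfold gy
  rw [div_lt_one (by linarith)]
  linarith

lemma gy_strictMono : StrictMono (gy q) := by
  apply strictMono_nat_of_lt_succ
  intro t
  have ha := qpow_pos h0 h1 t
  have hb := qpow_pos h0 h1 (t + 1)
  have hc : q ^ (t + 1 + 1) < q ^ (t + 1) := pow_lt_pow_right_of_lt_one₀ h0 h1 (by omega)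
  unfold gy
  rw [div_lt_div_iff₀ (by linarith) (by linarith)]
  nlinarith

lemma one_sub_gy (t : ℕ) : 1 - gy q t = 2 * q ^ (t + 1) / (1 + q ^ (t + 1)) := by
  have ha := qpow_pos h0 h1 t
  unfold gy
  field_simp
  ring

lemma le_one_sub_gy (t : ℕ) : q ^ (t + 1) ≤ 1 - gy q t := by
  have ha := qpow_pos h0 h1 t
  have hb := qpow_lt_one h0 h1 t
  rw [one_sub_gy h0 h1, le_div_iff₀ (by linarith)]
  nlinarith

lemma one_sub_gy_sq (t : ℕ) : 1 - gy q t ^ 2 ≤ 4 * q ^ (t + 1) := by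
  have ha := qpow_pos h0 h1 t
  have h2 : 1 - gy q t ^ 2 = 4 * q ^ (t + 1) / (1 + q ^ (t + 1)) ^ 2 := by
    unfold gy
    field_simp
    ring
  rw [h2, div_le_iff₀ (by positivity)]
  nlinarith [pow_pos ha 2, pow_pos ha 3]

/-- correlation in infinite degree -/
lemma corr (t : ℕ) :
    (1 - gy q t ^ 2) * (1 - gy q (t + 1) ^ 2) =
      (1 - ((1 - q) / (1 + q)) ^ 2) * (1 - gy q t * gy q (t + 1)) ^ 2 := by
  have ha := qpow_pos h0 h1 t
  have hb := qpow_pos h0 h1 (t + 1)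
  have h3 : q ^ (t + 1 + 1) = q * q ^ (t + 1) := by ring
  unfold gy
  rw [h3] at hb ⊢
  generalize q ^ (t + 1) = Q at *
  have h4 : (1 + q) ≠ 0 := by linarith
  have h5 : (1 + Q) ≠ 0 := by linarith
  have h6 : (1 + q * Q) ≠ 0 := by nlinarith
  field_simp
  ring

end grid

/-- finite geometric sum -/
lemma geo (m : ℕ) (s : ℝ) (hs : s < 1) :
    ∑ k ∈ range m, s ^ k = (1 - s ^ m) / (1 - s) := by
  rw [geom_sum_eq (by linarith : s ≠ 1), ← neg_sub, ← neg_sub (1 : ℝ) s, neg_div_neg_eq]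

/-- algebraic part of the finite degree correlation bound -/
lemma alg_aux (y z d η X Y Z : ℝ) (hyz1 : y * z < 1) (hy2 : y ^ 2 < 1) (hz2 : z ^ 2 < 1)
    (hc : (1 - y ^ 2) * (1 - z ^ 2) = (1 - d ^ 2) * (1 - y * z) ^ 2)
    (hD : 0 ≤ 1 - d ^ 2) (hη4 : η ≤ 1 / 4) (e1 : Y ≤ η) (e2 : Z ≤ η) (e1' : 0 ≤ Y) (e2' : 0 ≤ Z)
    (e3 : 0 ≤ X) (e3' : X ≤ 1) :
    d ^ 2 - 4 * η ≤ 1 - ((1 - X) / (1 - y * z)) ^ 2 /
      ((1 - Y) / (1 - y ^ 2) * ((1 - Z) / (1 - z ^ 2))) := by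
  have a1 : 1 - y * z ≠ 0 := by linarith
  have a2 : 1 - y ^ 2 ≠ 0 := by linarith
  have a3 : 1 - z ^ 2 ≠ 0 := by linarith
  have a4 : 1 - Y ≠ 0 := by linarith
  have a5 : 1 - Z ≠ 0 := by linarith
  have hη0 : 0 ≤ η := le_trans e2' e2
  have key : ((1 - X) / (1 - y * z)) ^ 2 / ((1 - Y) / (1 - y ^ 2) * ((1 - Z) / (1 - z ^ 2)))
      = (1 - d ^ 2) * ((1 - X) ^ 2 / ((1 - Y) * (1 - Z))) := by
    have : ((1 - X) / (1 - y * z)) ^ 2 / ((1 - Y) / (1 - y ^ 2) * ((1 - Z) / (1 - z ^ 2)))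
      = ((1 - y ^ 2) * (1 - z ^ 2)) / (1 - y * z) ^ 2 * ((1 - X) ^ 2 / ((1 - Y) * (1 - Z))) := by
      field_simp
    rw [this, hc, mul_div_assoc, div_self (pow_ne_zero 2 a1), mul_one]
  rw [key]
  have hA : (1 - η) ^ 2 ≤ (1 - Y) * (1 - Z) := by
    have h1 : (1 - η) ≤ 1 - Y := by linarith
    have h2 : (1 - η) ≤ 1 - Z := by linarith
    have h3 : 0 ≤ 1 - η := by linarith
    calc (1 - η) ^ 2 = (1 - η) * (1 - η) := by ring
      _ ≤ (1 - Y) * (1 - Z) := mul_le_mul h1 h2 h3 (by linarith)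
  have hB : (1 - X) ^ 2 ≤ 1 := by nlinarith
  have hA0 : 0 < (1 - η) ^ 2 := pow_pos (by linarith) 2
  have hC : (1 - X) ^ 2 / ((1 - Y) * (1 - Z)) ≤ 1 + 4 * η := by
    rw [div_le_iff₀ (by linarith)]
    have h1 : 1 ≤ (1 + 4 * η) * (1 - η) ^ 2 := by
      have : 0 ≤ η * (2 - 7 * η + 4 * η ^ 2) := mul_nonneg hη0 (by nlinarith)
      nlinarith
    calc (1 - X) ^ 2 ≤ 1 := hB
      _ ≤ (1 + 4 * η) * (1 - η) ^ 2 := h1
      _ ≤ (1 + 4 * η) * ((1 - Y) * (1 - Z)) := mul_le_mul_of_nonneg_left hA (by linarith)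
  have h9 := mul_le_mul_of_nonneg_left hC hD
  have h10 := mul_nonneg hη0 (sq_nonneg d)
  nlinarith

/-- finite degree correlation bound -/
lemma corr_fin {q : ℝ} (h0 : 0 < q) (h1 : q < 1) (t m : ℕ) (η : ℝ)
    (hη : gy q (t + 1) ^ (2 * m) ≤ η) (hη4 : η ≤ 1 / 4) :
    ((1 - q) / (1 + q)) ^ 2 - 4 * η ≤
      1 - (∑ k ∈ range m, (gy q t * gy q (t + 1)) ^ k) ^ 2 /
        ((∑ k ∈ range m, (gy q t ^ 2) ^ k) * (∑ k ∈ range m, (gy q (t + 1) ^ 2) ^ k)) := by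
  have y0 := gy_pos h0 h1 t
  have y1 := gy_lt_one h0 h1 t
  have z0 := gy_pos h0 h1 (t + 1)
  have z1 := gy_lt_one h0 h1 (t + 1)
  have yz : gy q t < gy q (t + 1) := gy_strictMono h0 h1 (by omega)
  have hc := corr h0 h1 t
  have hd0 : 0 ≤ (1 - q) / (1 + q) := div_nonneg (by linarith) (by linarith)
  have hd1 : (1 - q) / (1 + q) ≤ 1 := by rw [div_le_one (by linarith)]; linarith
  have hyz1 : gy q t * gy q (t + 1) < 1 := by nlinarith
  have hy2 : gy q t ^ 2 < 1 := by nlinarith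
  have hz2 : gy q (t + 1) ^ 2 < 1 := by nlinarith
  rw [geo m _ hyz1, geo m _ hy2, geo m _ hz2]
  refine alg_aux _ _ _ η _ _ _ hyz1 hy2 hz2 hc (by nlinarith) hη4 ?_ ?_ (by positivity)
    (by positivity) (by positivity) (pow_le_one₀ (by positivity) hyz1.le)
  · refine le_trans ?_ hη
    rw [pow_mul]
    exact pow_le_pow_left₀ (by positivity) (by nlinarith) m
  · rw [← pow_mul]; exact hη

end Pool.Agent.H614.Kac
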