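import Mathlib
import Pool.Agent.H614.Kac.Grid

set_option autoImplicit false
open MeasureTheory ProbabilityTheory Finset

namespace Pool.Agent.H614.Kac

/-- Chebyshev bound for linear forms. -/
def S_cheb : Prop :=
  ∀ (M : ℕ) (w : ℕ → ℝ) (t : ℝ), 0 < t →
    mu.real {ω | t ≤ |lin M w ω|} ≤ (∑ k ∈ range M, w k ^ 2) / t ^ 2

/-- the drift `h` planted in the last coefficients of a polynomial of degree `n` -/
def sh (n : ℕ) (h : ℕ → ℝ) (k : ℕ) : ℝ := if k ≤ n then h (n - k) else 0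

lemma ev_eq (n : ℕ) (ω : ℕ → ℝ) (x : ℝ) : ev n ω x = lin (n + 1) (fun k => x ^ k) ω := by
  unfold ev lin
  exact sum_congr rfl fun k _ => mul_comm _ _

lemma rv_eq (n : ℕ) (ω : ℕ → ℝ) (x : ℝ) : rv n ω x = lin (n + 1) (fun k => x ^ (n - k)) ω := by
  unfold rv lin
  exact sum_congr rfl fun k _ => mul_comm _ _

lemma lin_add (M : ℕ) (w ω η : ℕ → ℝ) : lin M w (ω + η) = lin M w ω + lin M w η := by
  unfold lin
  rw [← sum_add_distrib]
  exact sum_congr rfl fun k _ => by simp only [Pi.add_apply]; ring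

lemma measurable_lin (M : ℕ) (w : ℕ → ℝ) : Measurable (lin M w) := by
  unfold lin
  fun_prop

lemma measurable_ev (n : ℕ) (x : ℝ) : Measurable (fun ω => ev n ω x) := by
  unfold ev
  fun_prop

lemma measurable_rv (n : ℕ) (x : ℝ) : Measurable (fun ω => rv n ω x) := by
  unfold rv
  fun_prop

/-- reversal of a sum -/
lemma refl_sum (n : ℕ) (f : ℕ → ℝ) :
    ∑ k ∈ range (n + 1), f (n - k) = ∑ j ∈ range (n + 1), f j := by
  have := Finset.sum_range_reflect f (n + 1)
  rw [← this]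
  apply sum_congr rfl
  intro k hk
  congr 1

lemma rv_shift (n : ℕ) (h ω : ℕ → ℝ) (y : ℝ) :
    rv n (ω + sh n h) y = lin (n + 1) (fun k => y ^ (n - k)) ω
      + ∑ j ∈ range (n + 1), h j * y ^ j := by
  rw [rv_eq, lin_add]
  congr 1
  rw [← refl_sum n (fun j => h j * y ^ j)]
  unfold lin sh
  apply sum_congr rfl
  intro k hk
  rw [mem_range] at hk
  rw [if_pos (by omega)]
  ring

lemma ev_shift (n : ℕ) (h ω : ℕ → ℝ) (x : ℝ) :
    ev n (ω + sh n h) x = lin (n + 1) (fun k => x ^ k) ω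
      + ∑ j ∈ range (n + 1), h j * x ^ (n - j) := by
  rw [ev_eq, lin_add]
  congr 1
  rw [← refl_sum n (fun j => h j * x ^ (n - j))]
  unfold lin sh
  apply sum_congr rfl
  intro k hk
  rw [mem_range] at hk
  rw [if_pos (by omega)]
  have : n - (n - k) = k := by omega
  rw [this]
  ring

lemma plant_zero (A : ℝ) (J k : ℕ) (hk : 2 * 64 ^ J ≤ k) : plant A J k = 0 := by
  unfold plant
  apply sum_eq_zero
  intro i hi
  rw [mem_Icc] at hi
  rw [if_neg]
  rintro ⟨_, h2⟩
  have : (64 : ℕ) ^ i ≤ 64 ^ J := Nat.pow_le_pow_right (by norm_num) hi.2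
  omega

/-- the drift inside the unit interval is tiny -/
lemma inside_small (ha : S_plant_abs) (A : ℝ) (J n : ℕ) (hA : 0 ≤ A) (x : ℝ)
    (hx1 : |x| ≤ 1) (hn : 2 * 64 ^ J ≤ n) :
    |∑ j ∈ range (n + 1), plant A J j * x ^ (n - j)| ≤ |x| ^ (n - 2 * 64 ^ J) * (2 * A * 8 ^ J) := by
  calc |∑ j ∈ range (n + 1), plant A J j * x ^ (n - j)|
      ≤ ∑ j ∈ range (n + 1), |plant A J j * x ^ (n - j)| := abs_sum_le_sum_abs _ _
    _ ≤ ∑ j ∈ range (n + 1), |x| ^ (n - 2 * 64 ^ J) * |plant A J j| := by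
        apply sum_le_sum
        intro j hj
        rw [abs_mul, abs_pow, mul_comm]
        by_cases h : 2 * 64 ^ J ≤ j
        · rw [plant_zero A J j h]; simp
        · apply mul_le_mul_of_nonneg_right _ (abs_nonneg _)
          exact pow_le_pow_of_le_one (abs_nonneg _) hx1 (by omega)
    _ = |x| ^ (n - 2 * 64 ^ J) * ∑ j ∈ range (n + 1), |plant A J j| := by rw [mul_sum]
    _ ≤ _ := mul_le_mul_of_nonneg_left (ha A J _ hA) (by positivity)

/-- expected number of sign changes -/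
lemma integral_sc (G : (ℕ → ℝ) → ℝ → ℝ) (hG : ∀ x, Measurable (fun ω => G ω x)) (y : ℕ → ℝ)
    (a b : ℕ) :
    Integrable (fun ω => (sc (G ω) y a b : ℝ)) mu ∧
    ∫ ω, (sc (G ω) y a b : ℝ) ∂mu
      = ∑ t ∈ Ico a b, mu.real {ω | G ω (y t) * G ω (y (t + 1)) < 0} := by
  have hm : ∀ t, MeasurableSet {ω | G ω (y t) * G ω (y (t + 1)) < 0} := fun t =>
    measurableSet_lt ((hG _).mul (hG _)) measurable_const
  have he : ∀ ω, (sc (G ω) y a b : ℝ)
      = ∑ t ∈ Ico a b, Set.indicator {ω | G ω (y t) * G ω (y (t + 1)) < 0} (fun _ => (1 : ℝ)) ω := by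
    intro ω
    unfold sc
    rw [card_filter]
    push_cast
    apply sum_congr rfl
    intro t _
    simp only [Set.indicator, Set.mem_setOf_eq]
  simp_rw [he]
  have hi : ∀ t ∈ Ico a b, Integrable (fun ω => Set.indicator
      {ω | G ω (y t) * G ω (y (t + 1)) < 0} (fun _ => (1 : ℝ)) ω) mu := fun t _ =>
    (integrable_const (1 : ℝ)).indicator (hm t)
  refine ⟨integrable_finset_sum _ hi, ?_⟩
  rw [integral_finset_sum _ hi]
  apply sum_congr rfl
  intro t _
  rw [integral_indicator (hm t)]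
  simp

end Pool.Agent.H614.Kac
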