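import Mathlib
import Pool.Agent.H614.Kac.Shifted

set_option autoImplicit false
open MeasureTheory ProbabilityTheory Finset

namespace Pool.Agent.H614.Kac

/-- typical pair of neighbouring grid points -/
lemma typ (hp : S_pair) {q : ℝ} (h0 : 0 < q) (h1 : q < 1) (ε ε₁ η : ℝ) (hε0 : 0 ≤ ε) (hε1 : ε ≤ 1)
    (M : ℕ) (hM : 0 < M) (u v : ℕ → ℝ) (m₁ m₂ : ℝ) (t : ℕ)
    (hu : ∑ k ∈ range M, u k ^ 2 = ∑ k ∈ range M, (gy q t ^ 2) ^ k)
    (hv : ∑ k ∈ range M, v k ^ 2 = ∑ k ∈ range M, (gy q (t + 1) ^ 2) ^ k)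
    (huv : ∑ k ∈ range M, u k * v k = ∑ k ∈ range M, (gy q t * gy q (t + 1)) ^ k)
    (hη : gy q (t + 1) ^ (2 * M) ≤ η) (hη4 : η ≤ 1 / 4)
    (hη2 : 4 * η ≤ ε * ((1 - q) / (1 + q)) ^ 2)
    (hm1 : |m₁| ≤ ε₁ * Real.sqrt (∑ k ∈ range M, (gy q t ^ 2) ^ k))
    (hm2 : |m₂| ≤ ε₁ * Real.sqrt (∑ k ∈ range M, (gy q (t + 1) ^ 2) ^ k)) :
    (1 - ε) * ((1 - q) / (1 + q)) / Real.pi - 2 * ε₁
      ≤ mu.real {ω | (lin M u ω + m₁) * (lin M v ω + m₂) < 0} := by
  have hpos : ∀ s : ℝ, 0 ≤ s → 0 < ∑ k ∈ range M, s ^ k := by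
    intro s hs
    obtain ⟨M', rfl⟩ : ∃ M', M = M' + 1 := ⟨M - 1, by omega⟩
    rw [sum_range_succ']
    have : 0 ≤ ∑ k ∈ range M', s ^ (k + 1) := sum_nonneg fun k _ => by positivity
    simp only [pow_zero]
    linarith
  have ha := hpos (gy q t ^ 2) (sq_nonneg _)
  have hb := hpos (gy q (t + 1) ^ 2) (sq_nonneg _)
  have key := hp M u v m₁ m₂ _ _ _ rfl rfl rfl (by rw [hu]; exact ha) (by rw [hv]; exact hb)
  rw [hu, hv, huv] at key
  refine le_trans ?_ key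
  have hc := corr_fin h0 h1 t M η hη hη4
  set d := (1 - q) / (1 + q) with hd
  have hd0 : 0 ≤ d := div_nonneg (by linarith) (by linarith)
  have hs : (1 - ε) * d ≤ Real.sqrt (1 - (∑ k ∈ range M, (gy q t * gy q (t + 1)) ^ k) ^ 2 /
      ((∑ k ∈ range M, (gy q t ^ 2) ^ k) * ∑ k ∈ range M, (gy q (t + 1) ^ 2) ^ k)) := by
    apply Real.le_sqrt_of_sq_le
    refine le_trans ?_ hc
    have h5 : ((1 - ε) * d) ^ 2 = d ^ 2 - (2 - ε) * ε * d ^ 2 := by ring
    have h6 : ε * d ^ 2 ≤ (2 - ε) * ε * d ^ 2 := by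
      have : 0 ≤ (1 - ε) * (ε * d ^ 2) := mul_nonneg (by linarith) (by positivity)
      nlinarith
    linarith
  have h1' : |m₁| / Real.sqrt (∑ k ∈ range M, (gy q t ^ 2) ^ k) ≤ ε₁ := by
    rw [div_le_iff₀ (Real.sqrt_pos.mpr ha)]; exact hm1
  have h2' : |m₂| / Real.sqrt (∑ k ∈ range M, (gy q (t + 1) ^ 2) ^ k) ≤ ε₁ := by
    rw [div_le_iff₀ (Real.sqrt_pos.mpr hb)]; exact hm2
  have h3' : (1 - ε) * d / Real.pi ≤ Real.sqrt (1 - (∑ k ∈ range M, (gy q t * gy q (t + 1)) ^ k) ^ 2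
      / ((∑ k ∈ range M, (gy q t ^ 2) ^ k) * ∑ k ∈ range M, (gy q (t + 1) ^ 2) ^ k)) / Real.pi :=
    div_le_div_of_nonneg_right hs Real.pi_pos.le
  linarith

/-- the coarse grid -/
noncomputable def gz (j : ℕ) : ℝ := (16 * 64 ^ j - 1) / (16 * 64 ^ j + 1)

lemma one_sub_gz (j : ℕ) : 1 - gz j = 2 / (16 * 64 ^ j + 1) := by
  have : (0 : ℝ) < 64 ^ j := by positivity
  unfold gz
  field_simp
  ring

lemma gz_pos (j : ℕ) : 0 < gz j := by
  have : (1 : ℝ) ≤ 64 ^ j := one_le_pow₀ (by norm_num)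
  unfold gz
  apply div_pos <;> linarith

lemma gz_lt_one (j : ℕ) : gz j < 1 := by
  have h := one_sub_gz j
  have : (0 : ℝ) < 2 / (16 * 64 ^ j + 1) := by positivity
  linarith

lemma gz_strictMono : StrictMono gz := by
  apply strictMono_nat_of_lt_succ
  intro j
  have h1 := one_sub_gz j
  have h2 := one_sub_gz (j + 1)
  have h3 : (0 : ℝ) < 64 ^ j := by positivity
  have : (2 : ℝ) / (16 * 64 ^ (j + 1) + 1) < 2 / (16 * 64 ^ j + 1) := by
    apply div_lt_div_of_pos_left (by norm_num) (by positivity)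
    have : (64 : ℝ) ^ (j + 1) = 64 * 64 ^ j := by ring
    rw [this]; linarith
  linarith

/-- one planted point -/
lemma planted_one (hc : S_cheb) (hpp : S_plant_pos) (J j n : ℕ) (h1 : 1 ≤ j) (h2 : j ≤ J)
    (hn : 2 * 64 ^ J ≤ n) :
    mu.real {ω | ¬ (0 < (-1) ^ j * (lin (n + 1) (fun k => gz j ^ (n - k)) ω
      + ∑ i ∈ range (n + 1), plant 40 J i * gz j ^ i))} ≤ 1 / 39 := by
  have hm := hpp 40 J (n + 1) j (by norm_num) h1 h2 (by omega)
  rw [show ((16 * 64 ^ j - 1) / (16 * 64 ^ j + 1) : ℝ) = gz j from rfl] at hm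
  set m := ∑ i ∈ range (n + 1), plant 40 J i * gz j ^ i with hmdef
  have h8 : (0 : ℝ) < 8 ^ j := by positivity
  set T : ℝ := 46 / 100 * 40 * 8 ^ j with hT
  have hT0 : 0 < T := by positivity
  have hsub : {ω | ¬ (0 < (-1) ^ j * (lin (n + 1) (fun k => gz j ^ (n - k)) ω + m))}
      ⊆ {ω | T ≤ |lin (n + 1) (fun k => gz j ^ (n - k)) ω|} := by
    intro ω hω
    have hω' : ¬ (0 < (-1) ^ j * (lin (n + 1) (fun k => gz j ^ (n - k)) ω + m)) := hω
    show T ≤ |lin (n + 1) (fun k => gz j ^ (n - k)) ω|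
    have h3 : |(-1) ^ j * lin (n + 1) (fun k => gz j ^ (n - k)) ω|
        = |lin (n + 1) (fun k => gz j ^ (n - k)) ω| := by
      rw [abs_mul, abs_pow, abs_neg, abs_one, one_pow, one_mul]
    rw [← h3]
    have h4 := neg_le_abs ((-1) ^ j * lin (n + 1) (fun k => gz j ^ (n - k)) ω)
    rw [mul_add] at hω'
    linarith [not_lt.mp hω']
  refine le_trans (measureReal_mono hsub) ?_
  refine le_trans (hc _ _ _ hT0) ?_
  have hs : ∑ k ∈ range (n + 1), (gz j ^ (n - k)) ^ 2 ≤ 17 / 2 * 64 ^ j := by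
    have e1 : ∑ k ∈ range (n + 1), (gz j ^ (n - k)) ^ 2 = ∑ k ∈ range (n + 1), (gz j ^ 2) ^ k := by
      rw [← refl_sum n (fun k => (gz j ^ 2) ^ k)]
      apply sum_congr rfl
      intro k _
      rw [← pow_mul, ← pow_mul, mul_comm]
    have g0 := gz_pos j
    have g1 := gz_lt_one j
    rw [e1, geo _ _ (by nlinarith), div_le_iff₀ (by nlinarith)]
    have e2 : (1 - (gz j ^ 2) ^ (n + 1)) ≤ 1 := by
      have : 0 ≤ (gz j ^ 2) ^ (n + 1) := by positivity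
      linarith
    refine le_trans e2 ?_
    have e3 : 1 - gz j ≤ 1 - gz j ^ 2 := by nlinarith
    have e4 := one_sub_gz j
    have e5 : (1 : ℝ) ≤ 64 ^ j := one_le_pow₀ (by norm_num)
    have e6 : 2 / (17 * 64 ^ j) ≤ 1 - gz j := by
      rw [e4]
      apply div_le_div_of_nonneg_left (by norm_num) (by positivity)
      linarith
    calc (1 : ℝ) = 17 / 2 * 64 ^ j * (2 / (17 * 64 ^ j)) := by field_simp
      _ ≤ 17 / 2 * 64 ^ j * (1 - gz j ^ 2) := by
        apply mul_le_mul_of_nonneg_left (by linarith) (by positivity)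
  rw [div_le_iff₀ (by positivity)]
  refine le_trans hs ?_
  have e7 : (64 : ℝ) ^ j = 8 ^ j * 8 ^ j := by rw [← mul_pow]; norm_num
  rw [hT, e7]
  have : 0 < (8 : ℝ) ^ j * 8 ^ j := by positivity
  nlinarith

/-- planted pair -/
lemma planted_pair (hc : S_cheb) (hpp : S_plant_pos) (J j n : ℕ) (h1 : 1 ≤ j) (h2 : j + 1 ≤ J)
    (hn : 2 * 64 ^ J ≤ n) :
    37 / 39 ≤ mu.real {ω | rv n (ω + sh n (plant 40 J)) (gz j) *
      rv n (ω + sh n (plant 40 J)) (gz (j + 1)) < 0} := by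
  have hA := planted_one hc hpp J j n h1 (by omega) hn
  have hB := planted_one hc hpp J (j + 1) n (by omega) h2 hn
  set F := fun ω => rv n (ω + sh n (plant 40 J)) (gz j) with hF
  set G := fun ω => rv n (ω + sh n (plant 40 J)) (gz (j + 1)) with hG
  have hA' : mu.real {ω | ¬ (0 < (-1) ^ j * F ω)} ≤ 1 / 39 := by
    simp only [hF, rv_shift]; exact hA
  have hB' : mu.real {ω | ¬ (0 < (-1) ^ (j + 1) * G ω)} ≤ 1 / 39 := by
    simp only [hG, rv_shift]; exact hB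
  have hcov : (Set.univ : Set (ℕ → ℝ)) ⊆ {ω | F ω * G ω < 0} ∪
      ({ω | ¬ (0 < (-1) ^ j * F ω)} ∪ {ω | ¬ (0 < (-1) ^ (j + 1) * G ω)}) := by
    intro ω _
    by_cases ha : 0 < (-1) ^ j * F ω
    · by_cases hb : 0 < (-1) ^ (j + 1) * G ω
      · left
        show F ω * G ω < 0
        have hab := mul_pos ha hb
        have e : (-1 : ℝ) ^ j * F ω * ((-1) ^ (j + 1) * G ω) = - (F ω * G ω) := by
          have : (-1 : ℝ) ^ j * (-1) ^ (j + 1) = -1 := by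
            rw [← pow_add]
            exact Odd.neg_one_pow ⟨j, by ring⟩
          linear_combination (F ω * G ω) * this
        rw [e] at hab
        linarith
      · right; right; exact hb
    · right; left; exact ha
  have h3 := measureReal_mono (μ := mu) hcov
  rw [probReal_univ] at h3
  have h4 := measureReal_union_le (μ := mu) {ω | F ω * G ω < 0}
    ({ω | ¬ (0 < (-1) ^ j * F ω)} ∪ {ω | ¬ (0 < (-1) ^ (j + 1) * G ω)})
  have h5 := measureReal_union_le (μ := mu) {ω | ¬ (0 < (-1) ^ j * F ω)}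
    {ω | ¬ (0 < (-1) ^ (j + 1) * G ω)}
  linarith

end Pool.Agent.H614.Kac
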