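import Mathlib
import Pool.Agent.H614.Kac.Pairs

set_option autoImplicit false
open MeasureTheory ProbabilityTheory Finset

namespace Pool.Agent.H614.Kac

lemma int5 {f1 f2 f3 f4 f5 : (ℕ → ℝ) → ℝ} (h1 : Integrable f1 mu) (h2 : Integrable f2 mu)
    (h3 : Integrable f3 mu) (h4 : Integrable f4 mu) (h5 : Integrable f5 mu) :
    ∫ ω, (f1 ω + f2 ω + f3 ω + f4 ω + f5 ω) ∂mu
      = ∫ ω, f1 ω ∂mu + ∫ ω, f2 ω ∂mu + ∫ ω, f3 ω ∂mu + ∫ ω, f4 ω ∂mu + ∫ ω, f5 ω ∂mu := by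
  have e1 := integral_add (((h1.add h2).add h3).add h4) h5
  have e2 := integral_add ((h1.add h2).add h3) h4
  have e3 := integral_add (h1.add h2) h3
  have e4 := integral_add h1 h2
  simp only [Pi.add_apply] at e1 e2 e3 e4
  rw [e1, e2, e3, e4]

lemma sq_sum_ev (M : ℕ) (x : ℝ) : ∑ k ∈ range M, (x ^ k) ^ 2 = ∑ k ∈ range M, (x ^ 2) ^ k :=
  sum_congr rfl fun k _ => by rw [← pow_mul, ← pow_mul, mul_comm]

lemma mul_sum_ev (M : ℕ) (x y : ℝ) : ∑ k ∈ range M, x ^ k * y ^ k = ∑ k ∈ range M, (x * y) ^ k :=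
  sum_congr rfl fun k _ => by rw [mul_pow]

lemma sq_sum_rv (n : ℕ) (x : ℝ) :
    ∑ k ∈ range (n + 1), (x ^ (n - k)) ^ 2 = ∑ k ∈ range (n + 1), (x ^ 2) ^ k := by
  rw [← refl_sum n (fun k => (x ^ 2) ^ k)]
  exact sum_congr rfl fun k _ => by rw [← pow_mul, ← pow_mul, mul_comm]

lemma mul_sum_rv (n : ℕ) (x y : ℝ) :
    ∑ k ∈ range (n + 1), x ^ (n - k) * y ^ (n - k) = ∑ k ∈ range (n + 1), (x * y) ^ k := by
  rw [← refl_sum n (fun k => (x * y) ^ k)]
  exact sum_congr rfl fun k _ => by rw [mul_pow]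

lemma gy_pow_le {q : ℝ} (h0 : 0 < q) (h1 : q < 1) (t b k : ℕ) (htb : t ≤ b) :
    gy q t ^ k ≤ Real.exp (-(k * q ^ (b + 1))) := by
  have e1 : gy q t ≤ Real.exp (-(q ^ (b + 1))) := by
    have := le_one_sub_gy h0 h1 t
    have h2 : q ^ (b + 1) ≤ q ^ (t + 1) := pow_le_pow_of_le_one h0.le h1.le (by omega)
    have h3 := Real.add_one_le_exp (-(q ^ (b + 1)))
    linarith
  calc gy q t ^ k ≤ Real.exp (-(q ^ (b + 1))) ^ k :=
        pow_le_pow_left₀ (gy_pos h0 h1 t).le e1 k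
    _ = _ := by rw [← Real.exp_nat_mul]; congr 1; ring

lemma sqrt_low {q : ℝ} (h0 : 0 < q) (h1 : q < 1) (t n : ℕ) (C ε₁ : ℝ) (hε : 0 ≤ ε₁)
    (hy : gy q t ^ (2 * (n + 1)) ≤ 1 / 4) (hq : C ^ 2 * (16 * q ^ (t + 1)) ≤ 3 * ε₁ ^ 2) :
    C ≤ ε₁ * Real.sqrt (∑ k ∈ range (n + 1), (gy q t ^ 2) ^ k) := by
  have y0 := gy_pos h0 h1 t
  have y1 := gy_lt_one h0 h1 t
  have hQ := qpow_pos h0 h1 t
  have hs : 3 / (16 * q ^ (t + 1)) ≤ ∑ k ∈ range (n + 1), (gy q t ^ 2) ^ k := by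
    rw [geo _ _ (by nlinarith)]
    have e1 := one_sub_gy_sq h0 h1 t
    have e2 : 0 < 1 - gy q t ^ 2 := by nlinarith
    rw [div_le_div_iff₀ (by positivity) e2]
    have e3 : (gy q t ^ 2) ^ (n + 1) ≤ 1 / 4 := by rw [← pow_mul]; exact hy
    nlinarith
  have h3 : C ^ 2 ≤ ε₁ ^ 2 * ∑ k ∈ range (n + 1), (gy q t ^ 2) ^ k := by
    calc C ^ 2 = C ^ 2 * (16 * q ^ (t + 1)) * (1 / (16 * q ^ (t + 1))) := by field_simp
      _ ≤ 3 * ε₁ ^ 2 * (1 / (16 * q ^ (t + 1))) :=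
        mul_le_mul_of_nonneg_right hq (by positivity)
      _ = ε₁ ^ 2 * (3 / (16 * q ^ (t + 1))) := by ring
      _ ≤ _ := mul_le_mul_of_nonneg_left hs (sq_nonneg _)
  have h4 : (ε₁ * Real.sqrt (∑ k ∈ range (n + 1), (gy q t ^ 2) ^ k)) ^ 2
      = ε₁ ^ 2 * ∑ k ∈ range (n + 1), (gy q t ^ 2) ^ k := by
    rw [mul_pow, Real.sq_sqrt]
    exact sum_nonneg fun k _ => by positivity
  rw [← h4] at h3
  exact le_of_sq_le_sq h3 (by positivity)

/-- parameters for which the first moment computation works -/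
structure Params (q ε ε₁ : ℝ) (n J a a' b : ℕ) : Prop where
  q0 : 0 < q
  q1 : q < 1
  e0 : 0 ≤ ε
  e1 : ε ≤ 1
  e2 : 0 ≤ ε₁
  hn : 2 * 64 ^ J ≤ n
  c1 : 4 * Real.exp (-((2 * (n + 1) : ℕ) * q ^ (b + 1))) ≤ ε * ((1 - q) / (1 + q)) ^ 2
  c2 : Real.exp (-((2 * (n + 1) : ℕ) * q ^ (b + 1))) ≤ 1 / 4
  c3 : Real.exp (-((n - 2 * 64 ^ J : ℕ) * q ^ (b + 1))) * (80 * 8 ^ J) ≤ ε₁
  c4 : 120 ^ 2 * (16 * q ^ (a + 1)) ≤ 3 * ε₁ ^ 2
  c5 : (80 * 8 ^ J) ^ 2 * (16 * q ^ (a' + 1)) ≤ 3 * ε₁ ^ 2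

section fam
variable {q ε ε₁ : ℝ} {n J a a' b : ℕ} (P : Params q ε ε₁ n J a a' b)
include P

/-- inside pairs, `s = 1` or `s = -1` -/
lemma fam_inside (hp : S_pair) (ha : S_plant_abs) (s : ℝ) (hs : s = 1 ∨ s = -1) (t : ℕ)
    (htb : t < b) :
    (1 - ε) * ((1 - q) / (1 + q)) / Real.pi - 2 * ε₁ ≤
      mu.real {ω | ev n (ω + sh n (plant 40 J)) (s * gy q t) *
        ev n (ω + sh n (plant 40 J)) (s * gy q (t + 1)) < 0} := by
  have hs2 : s ^ 2 = 1 := by rcases hs with h | h <;> rw [h] <;> norm_num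
  have hsabs : |s| = 1 := by rcases hs with h | h <;> rw [h] <;> norm_num
  have hoff : ∀ r ≤ b, |∑ j ∈ range (n + 1), plant 40 J j * (s * gy q r) ^ (n - j)| ≤
      ε₁ * Real.sqrt (∑ k ∈ range (n + 1), (gy q r ^ 2) ^ k) := by
    intro r hr
    have y0 := gy_pos P.q0 P.q1 r
    have y1 := gy_lt_one P.q0 P.q1 r
    have habs : |s * gy q r| = gy q r := by rw [abs_mul, hsabs, one_mul, abs_of_pos y0]
    have h1 := inside_small ha 40 J n (by norm_num) (s * gy q r) (by rw [habs]; exact y1.le) P.hn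
    rw [habs] at h1
    have h2 := gy_pow_le P.q0 P.q1 r b (n - 2 * 64 ^ J) hr
    have h3 : |∑ j ∈ range (n + 1), plant 40 J j * (s * gy q r) ^ (n - j)| ≤ ε₁ := by
      refine le_trans h1 (le_trans ?_ P.c3)
      calc gy q r ^ (n - 2 * 64 ^ J) * (2 * 40 * 8 ^ J)
          = gy q r ^ (n - 2 * 64 ^ J) * (80 * 8 ^ J) := by norm_num
        _ ≤ _ := mul_le_mul_of_nonneg_right h2 (by positivity)
    have h4 : 1 ≤ Real.sqrt (∑ k ∈ range (n + 1), (gy q r ^ 2) ^ k) := by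
      rw [Real.one_le_sqrt, sum_range_succ']
      have : 0 ≤ ∑ k ∈ range n, (gy q r ^ 2) ^ (k + 1) := sum_nonneg fun k _ => by positivity
      simp only [pow_zero]
      linarith
    have h5 := P.e2
    nlinarith
  have key := typ hp P.q0 P.q1 ε ε₁ _ P.e0 P.e1 (n + 1) (by omega)
    (fun k => (s * gy q t) ^ k) (fun k => (s * gy q (t + 1)) ^ k) _ _ t
    (by rw [sq_sum_ev, mul_pow, hs2, one_mul]) (by rw [sq_sum_ev, mul_pow, hs2, one_mul])
    (by
      rw [mul_sum_ev]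
      apply sum_congr rfl
      intro k _
      congr 1
      linear_combination (gy q t * gy q (t + 1)) * hs2)
    (gy_pow_le P.q0 P.q1 (t + 1) b (2 * (n + 1)) (by omega)) P.c2 P.c1 (hoff t (by omega))
    (hoff (t + 1) (by omega))
  simpa only [ev_shift] using key

/-- outside pairs, `s = 1` or `s = -1` -/
lemma fam_outside (hp : S_pair) (s : ℝ) (hs : s = 1 ∨ s = -1) (t : ℕ) (htb : t < b) (C : ℝ)
    (hCq : C ^ 2 * (16 * q ^ (t + 1)) ≤ 3 * ε₁ ^ 2)
    (hoff : ∀ r, |∑ j ∈ range (n + 1), plant 40 J j * (s * gy q r) ^ j| ≤ C) :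
    (1 - ε) * ((1 - q) / (1 + q)) / Real.pi - 2 * ε₁ ≤
      mu.real {ω | rv n (ω + sh n (plant 40 J)) (s * gy q t) *
        rv n (ω + sh n (plant 40 J)) (s * gy q (t + 1)) < 0} := by
  have hs2 : s ^ 2 = 1 := by rcases hs with h | h <;> rw [h] <;> norm_num
  have hoff' : ∀ r ≤ b, t ≤ r → |∑ j ∈ range (n + 1), plant 40 J j * (s * gy q r) ^ j| ≤
      ε₁ * Real.sqrt (∑ k ∈ range (n + 1), (gy q r ^ 2) ^ k) := by
    intro r hr htr
    refine le_trans (hoff r) ?_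
    apply sqrt_low P.q0 P.q1 r n C ε₁ P.e2
    · exact le_trans (gy_pow_le P.q0 P.q1 r b (2 * (n + 1)) hr) P.c2
    · refine le_trans ?_ hCq
      have : q ^ (r + 1) ≤ q ^ (t + 1) := pow_le_pow_of_le_one P.q0.le P.q1.le (by omega)
      have h2 := sq_nonneg C
      nlinarith
  have key := typ hp P.q0 P.q1 ε ε₁ _ P.e0 P.e1 (n + 1) (by omega)
    (fun k => (s * gy q t) ^ (n - k)) (fun k => (s * gy q (t + 1)) ^ (n - k)) _ _ t
    (by rw [sq_sum_rv, mul_pow, hs2, one_mul]) (by rw [sq_sum_rv, mul_pow, hs2, one_mul])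
    (by
      rw [mul_sum_rv]
      apply sum_congr rfl
      intro k _
      congr 1
      linear_combination (gy q t * gy q (t + 1)) * hs2)
    (gy_pow_le P.q0 P.q1 (t + 1) b (2 * (n + 1)) (by omega)) P.c2 P.c1
    (hoff' t (by omega) le_rfl) (hoff' (t + 1) (by omega) (by omega))
  simpa only [rv_shift] using key

lemma off_neg (hng : S_plant_neg) (r : ℕ) :
    |∑ j ∈ range (n + 1), plant 40 J j * (-1 * gy q r) ^ j| ≤ 120 := by
  have h := hng 40 (gy q r) J (n + 1) (by norm_num) (gy_pos P.q0 P.q1 r).le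
    (gy_lt_one P.q0 P.q1 r).le (by have := P.hn; omega)
  rw [neg_one_mul]
  linarith

lemma off_pos (ha : S_plant_abs) (r : ℕ) :
    |∑ j ∈ range (n + 1), plant 40 J j * (1 * gy q r) ^ j| ≤ 80 * 8 ^ J := by
  have y0 := gy_pos P.q0 P.q1 r
  have y1 := gy_lt_one P.q0 P.q1 r
  calc |∑ j ∈ range (n + 1), plant 40 J j * (1 * gy q r) ^ j|
      ≤ ∑ j ∈ range (n + 1), |plant 40 J j * (1 * gy q r) ^ j| := abs_sum_le_sum_abs _ _
    _ ≤ ∑ j ∈ range (n + 1), |plant 40 J j| := by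
        apply sum_le_sum
        intro j _
        rw [abs_mul, one_mul, abs_pow, abs_of_pos y0]
        exact mul_le_of_le_one_right (abs_nonneg _) (pow_le_one₀ y0.le y1.le)
    _ ≤ 2 * 40 * 8 ^ J := ha 40 J _ (by norm_num)
    _ = 80 * 8 ^ J := by norm_num

/-- expected number of sign changes under the shifted law -/
theorem expect (hp : S_pair) (ha : S_plant_abs) (hng : S_plant_neg) (hpp : S_plant_pos)
    (hc : S_cheb) :
    (3 * (b - a : ℕ) + (b - a' : ℕ)) * ((1 - ε) * ((1 - q) / (1 + q)) / Real.pi - 2 * ε₁)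
      + (J - 1 : ℕ) * (37 / 39 : ℝ)
      ≤ ∫ ω, (SC n (ω + sh n (plant 40 J)) (gy q) gz a a' b 1 J : ℝ) ∂mu := by
  set h := sh n (plant 40 J) with hh
  set p := (1 - ε) * ((1 - q) / (1 + q)) / Real.pi - 2 * ε₁ with hpdef
  have m1 : ∀ x, Measurable (fun ω : ℕ → ℝ => ev n (ω + h) x) := fun x =>
    (measurable_ev n x).comp (measurable_id.add_const h)
  have m2 : ∀ x, Measurable (fun ω : ℕ → ℝ => ev n (ω + h) (-x)) := fun x =>
    (measurable_ev n (-x)).comp (measurable_id.add_const h)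
  have m3 : ∀ x, Measurable (fun ω : ℕ → ℝ => rv n (ω + h) (-x)) := fun x =>
    (measurable_rv n (-x)).comp (measurable_id.add_const h)
  have m4 : ∀ x, Measurable (fun ω : ℕ → ℝ => rv n (ω + h) x) := fun x =>
    (measurable_rv n x).comp (measurable_id.add_const h)
  have i1 := integral_sc (fun ω => ev n (ω + h)) m1 (gy q) a b
  have i2 := integral_sc (fun ω x => ev n (ω + h) (-x)) m2 (gy q) a b
  have i3 := integral_sc (fun ω x => rv n (ω + h) (-x)) m3 (gy q) a b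
  have i4 := integral_sc (fun ω => rv n (ω + h)) m4 (gy q) a' b
  have i5 := integral_sc (fun ω => rv n (ω + h)) m4 gz 1 J
  have hsum : ∫ ω, (SC n (ω + h) (gy q) gz a a' b 1 J : ℝ) ∂mu
      = ∫ ω, (sc (ev n (ω + h)) (gy q) a b : ℝ) ∂mu
        + ∫ ω, (sc (fun x => ev n (ω + h) (-x)) (gy q) a b : ℝ) ∂mu
        + ∫ ω, (sc (fun x => rv n (ω + h) (-x)) (gy q) a b : ℝ) ∂mu
        + ∫ ω, (sc (rv n (ω + h)) (gy q) a' b : ℝ) ∂mu
        + ∫ ω, (sc (rv n (ω + h)) gz 1 J : ℝ) ∂mu := by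
    unfold SC
    push_cast
    exact int5 i1.1 i2.1 i3.1 i4.1 i5.1
  rw [hsum, i1.2, i2.2, i3.2, i4.2, i5.2]
  have s1 : ((b - a : ℕ) : ℝ) * p ≤ ∑ t ∈ Ico a b,
      mu.real {ω | ev n (ω + h) (gy q t) * ev n (ω + h) (gy q (t + 1)) < 0} := by
    have := card_nsmul_le_sum (Ico a b) (fun t =>
      mu.real {ω | ev n (ω + h) (gy q t) * ev n (ω + h) (gy q (t + 1)) < 0}) p (by
        intro t ht
        rw [mem_Ico] at ht
        have := fam_inside P hp ha 1 (Or.inl rfl) t ht.2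
        simpa only [one_mul] using this)
    rwa [Nat.card_Ico, nsmul_eq_mul] at this
  have s2 : ((b - a : ℕ) : ℝ) * p ≤ ∑ t ∈ Ico a b,
      mu.real {ω | ev n (ω + h) (-gy q t) * ev n (ω + h) (-gy q (t + 1)) < 0} := by
    have := card_nsmul_le_sum (Ico a b) (fun t =>
      mu.real {ω | ev n (ω + h) (-gy q t) * ev n (ω + h) (-gy q (t + 1)) < 0}) p (by
        intro t ht
        rw [mem_Ico] at ht
        have := fam_inside P hp ha (-1) (Or.inr rfl) t ht.2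
        simpa only [neg_one_mul] using this)
    rwa [Nat.card_Ico, nsmul_eq_mul] at this
  have s3 : ((b - a : ℕ) : ℝ) * p ≤ ∑ t ∈ Ico a b,
      mu.real {ω | rv n (ω + h) (-gy q t) * rv n (ω + h) (-gy q (t + 1)) < 0} := by
    have := card_nsmul_le_sum (Ico a b) (fun t =>
      mu.real {ω | rv n (ω + h) (-gy q t) * rv n (ω + h) (-gy q (t + 1)) < 0}) p (by
        intro t ht
        rw [mem_Ico] at ht
        have := fam_outside P hp (-1) (Or.inr rfl) t ht.2 120 (by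
          refine le_trans ?_ P.c4
          have : q ^ (t + 1) ≤ q ^ (a + 1) := pow_le_pow_of_le_one P.q0.le P.q1.le (by omega)
          linarith) (off_neg P hng)
        simpa only [neg_one_mul] using this)
    rwa [Nat.card_Ico, nsmul_eq_mul] at this
  have s4 : ((b - a' : ℕ) : ℝ) * p ≤ ∑ t ∈ Ico a' b,
      mu.real {ω | rv n (ω + h) (gy q t) * rv n (ω + h) (gy q (t + 1)) < 0} := by
    have := card_nsmul_le_sum (Ico a' b) (fun t =>
      mu.real {ω | rv n (ω + h) (gy q t) * rv n (ω + h) (gy q (t + 1)) < 0}) p (by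
        intro t ht
        rw [mem_Ico] at ht
        have := fam_outside P hp 1 (Or.inl rfl) t ht.2 (80 * 8 ^ J) (by
          refine le_trans ?_ P.c5
          have : q ^ (t + 1) ≤ q ^ (a' + 1) := pow_le_pow_of_le_one P.q0.le P.q1.le (by omega)
          have h2 : 0 ≤ ((80 : ℝ) * 8 ^ J) ^ 2 := by positivity
          nlinarith) (off_pos P ha)
        simpa only [one_mul] using this)
    rwa [Nat.card_Ico, nsmul_eq_mul] at this
  have s5 : ((J - 1 : ℕ) : ℝ) * (37 / 39) ≤ ∑ t ∈ Ico 1 J,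
      mu.real {ω | rv n (ω + h) (gz t) * rv n (ω + h) (gz (t + 1)) < 0} := by
    have := card_nsmul_le_sum (Ico 1 J) (fun t =>
      mu.real {ω | rv n (ω + h) (gz t) * rv n (ω + h) (gz (t + 1)) < 0}) (37 / 39) (by
        intro t ht
        rw [mem_Ico] at ht
        exact planted_pair hc hpp J t n ht.1 (by omega) P.hn)
    rwa [Nat.card_Ico, nsmul_eq_mul] at this
  linarith

end fam

lemma sc_le (F : ℝ → ℝ) (y : ℕ → ℝ) (a b : ℕ) : sc F y a b ≤ b := by
  unfold sc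
  refine le_trans (card_filter_le _ _) ?_
  rw [Nat.card_Ico]
  omega

lemma SC_le (n : ℕ) (ω : ℕ → ℝ) (y z : ℕ → ℝ) (a a' b j J : ℕ) :
    SC n ω y z a a' b j J ≤ 4 * b + J := by
  unfold SC
  have h1 := sc_le (ev n ω) y a b
  have h2 := sc_le (fun x => ev n ω (-x)) y a b
  have h3 := sc_le (fun x => rv n ω (-x)) y a b
  have h4 := sc_le (rv n ω) y a' b
  have h5 := sc_le (rv n ω) z j J
  omega

lemma measurable_sc (G : (ℕ → ℝ) → ℝ → ℝ) (hG : ∀ x, Measurable (fun ω => G ω x)) (y : ℕ → ℝ)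
    (a b : ℕ) : Measurable (fun ω => (sc (G ω) y a b : ℝ)) := by
  have hm : ∀ t, MeasurableSet {ω | G ω (y t) * G ω (y (t + 1)) < 0} := fun t =>
    measurableSet_lt ((hG _).mul (hG _)) measurable_const
  have he : ∀ ω, (sc (G ω) y a b : ℝ)
      = ∑ t ∈ Ico a b, Set.indicator {ω | G ω (y t) * G ω (y (t + 1)) < 0} (fun _ => (1 : ℝ)) ω := by
    intro ω
    unfold sc
    rw [card_filter]
    push_cast
    apply sum_congr rfl
    intro t _
    rfl
  simp_rw [he]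
  exact Finset.measurable_sum _ fun t _ => measurable_const.indicator (hm t)

lemma measurable_SC (n : ℕ) (y z : ℕ → ℝ) (a a' b j J : ℕ) :
    Measurable (fun ω : ℕ → ℝ => (SC n ω y z a a' b j J : ℝ)) := by
  unfold SC
  push_cast
  exact ((((measurable_sc (fun ω => ev n ω) (measurable_ev n) y a b).add
    (measurable_sc (fun ω x => ev n ω (-x)) (fun x => measurable_ev n (-x)) y a b)).add
    (measurable_sc (fun ω x => rv n ω (-x)) (fun x => measurable_rv n (-x)) y a b)).add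
    (measurable_sc (fun ω => rv n ω) (measurable_rv n) y a' b)).add
    (measurable_sc (fun ω => rv n ω) (measurable_rv n) z j J)

/-- from expectation to probability -/
lemma prob_of_expect (f : (ℕ → ℝ) → ℝ) (hf : Measurable f) (hf0 : ∀ ω, 0 ≤ f ω) (T Θ : ℝ)
    (hT : ∀ ω, f ω ≤ T) (hT0 : 0 < T) (hΘ : 0 ≤ Θ) :
    (∫ ω, f ω ∂mu - Θ) / T ≤ mu.real {ω | Θ < f ω} := by
  have hm : MeasurableSet {ω | Θ < f ω} := measurableSet_lt measurable_const hf
  have hle : ∀ ω, f ω ≤ Θ + Set.indicator {ω | Θ < f ω} (fun _ => T) ω := by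
    intro ω
    by_cases h : Θ < f ω
    · have : Set.indicator {ω | Θ < f ω} (fun _ => T) ω = T := Set.indicator_of_mem (by exact h) _
      rw [this]; linarith [hT ω]
    · have : Set.indicator {ω | Θ < f ω} (fun _ => T) ω = 0 := Set.indicator_of_notMem (by exact h) _
      rw [this]; linarith
  have hint : Integrable f mu := by
    apply Integrable.of_bound hf.aestronglyMeasurable T
    filter_upwards with ω
    rw [Real.norm_eq_abs, abs_of_nonneg (hf0 ω)]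
    exact hT ω
  have h1 : ∫ ω, f ω ∂mu ≤ ∫ ω, (Θ + Set.indicator {ω | Θ < f ω} (fun _ => T) ω) ∂mu :=
    integral_mono hint ((integrable_const _).add ((integrable_const _).indicator hm)) hle
  rw [integral_add (integrable_const _) ((integrable_const _).indicator hm),
    integral_indicator hm] at h1
  simp only [integral_const, probReal_univ, smul_eq_mul, one_mul, measureReal_restrict_apply_univ]
    at h1
  rw [div_le_iff₀ hT0]
  linarith

end Pool.Agent.H614.Kac
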