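import Mathlib
import Pool.Agent.H614.Kac.First

set_option autoImplicit false
open MeasureTheory ProbabilityTheory Finset Filter

namespace Pool.Agent.H614.Kac

/-- the constant `log 64 / (2 π)` -/
noncomputable def lam : ℝ := Real.log 64 / (2 * Real.pi)

lemma log64 : Real.log 64 = 6 * Real.log 2 := by
  rw [show (64 : ℝ) = 2 ^ 6 by norm_num, Real.log_pow]; norm_num

lemma lam_pos : 0 < lam := by
  unfold lam
  have := Real.pi_pos
  have : 0 < Real.log 64 := Real.log_pos (by norm_num)
  positivity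

lemma lam_le : lam ≤ 6623 / 10000 := by
  unfold lam
  rw [log64, div_le_iff₀ (by positivity)]
  have h1 := Real.log_two_lt_d9
  have h2 := Real.pi_gt_d4
  linarith

/-- the ratio of the grid -/
noncomputable def qq : ℝ := Real.exp (-(Real.log 4 / 100000))

lemma log4 : Real.log 4 = 2 * Real.log 2 := by
  rw [show (4 : ℝ) = 2 ^ 2 by norm_num, Real.log_pow]; norm_num

lemma log4_pos : 0 < Real.log 4 := Real.log_pos (by norm_num)

lemma qq_pos : 0 < qq := Real.exp_pos _

lemma qq_lt_one : qq < 1 := by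
  unfold qq
  rw [Real.exp_lt_one_iff]
  have := log4_pos
  have : 0 < Real.log 4 / 100000 := by positivity
  linarith

lemma qq_pow : qq ^ 300000 = 1 / 64 := by
  unfold qq
  rw [← Real.exp_nat_mul]
  have : ((300000 : ℕ) : ℝ) * -(Real.log 4 / 100000) = -Real.log 64 := by
    rw [log64, log4]; push_cast; ring
  rw [this, Real.exp_neg, Real.exp_log (by norm_num)]
  norm_num

lemma qq_pow_mul (k : ℕ) : qq ^ (300000 * k) = (1 / 64) ^ k := by
  rw [pow_mul, qq_pow]

/-- lower bound for `300000 * d` -/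
lemma dd_low : Real.log 64 / 2 * (1 - 1 / 140000) ≤ 300000 * ((1 - qq) / (1 + qq)) := by
  set x := Real.log 4 / 100000 with hx
  have hx0 : 0 < x := by have := log4_pos; positivity
  have hx1 : x ≤ 1 / 70000 := by
    rw [hx, log4]
    have h1 := Real.log_two_lt_d9
    linarith
  have hq : qq * (1 + x) ≤ 1 := by
    have h1 : 1 + x ≤ Real.exp x := by linarith [Real.add_one_le_exp x]
    calc qq * (1 + x) ≤ qq * Real.exp x := mul_le_mul_of_nonneg_left h1 qq_pos.le
      _ = 1 := by unfold qq; rw [← Real.exp_add]; simp [hx]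
  have h2 : x / (2 + x) ≤ (1 - qq) / (1 + qq) := by
    have := qq_pos
    rw [div_le_div_iff₀ (by linarith) (by linarith)]
    nlinarith
  have h3 : x / 2 * (1 - x / 2) ≤ x / (2 + x) := by
    rw [le_div_iff₀ (by linarith)]
    nlinarith [pow_pos hx0 3]
  have h4 : 300000 * x = Real.log 64 := by
    rw [hx, log4, log64]; ring
  have h5 : x / 2 * (1 - 1 / 140000) ≤ x / 2 * (1 - x / 2) :=
    mul_le_mul_of_nonneg_left (by linarith) (by linarith)
  nlinarith

/-- the probability of a sign change at a typical pair -/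
noncomputable def pp : ℝ :=
  (1 - 1 / 100000) * ((1 - qq) / (1 + qq)) / Real.pi
    - 2 * (1 / 800000 * ((1 - qq) / (1 + qq)))

lemma dd_pos : 0 < (1 - qq) / (1 + qq) := by
  have h1 := qq_pos
  have h2 := qq_lt_one
  apply div_pos <;> linarith

lemma dd_le : (1 - qq) / (1 + qq) ≤ 1 := by
  have h1 := qq_pos
  rw [div_le_one (by linarith)]; linarith

lemma pp_low : lam * (1 - 1 / 30000) ≤ 300000 * pp := by
  have h1 := dd_low
  have h2 := dd_pos
  set d := (1 - qq) / (1 + qq) with hd
  have hπ := Real.pi_pos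
  have hπ4 : Real.pi ≤ 4 := Real.pi_le_four
  have h3 : (1 - 2 / 100000) * d / Real.pi ≤ pp := by
    unfold pp
    rw [← hd]
    have h4 : 2 * (1 / 800000 * d) ≤ 1 / 100000 * d / Real.pi := by
      rw [le_div_iff₀ hπ]
      nlinarith
    have h5 : (1 - 2 / 100000) * d / Real.pi
      = (1 - 1 / 100000) * d / Real.pi - 1 / 100000 * d / Real.pi := by ring
    linarith
  have h6 : lam * (1 - 1 / 30000) ≤ 300000 * ((1 - 2 / 100000) * d / Real.pi) := by
    have h7 : 300000 * ((1 - 2 / 100000) * d / Real.pi)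
      = (1 - 2 / 100000) * (300000 * d) / Real.pi := by ring
    have h8 : lam * (1 - 1 / 30000) = (Real.log 64 / 2 * (1 - 1 / 30000)) / Real.pi := by
      unfold lam; field_simp
    rw [h7, h8]
    apply div_le_div_of_nonneg_right _ hπ.le
    have h9 : 0 < Real.log 64 := Real.log_pos (by norm_num)
    nlinarith
  linarith

lemma pp_nonneg : 0 ≤ pp := by
  have h1 := pp_low
  have h2 := lam_pos
  nlinarith

lemma pp_le_one : pp ≤ 1 := by
  unfold pp
  have h1 := dd_pos
  have h2 := dd_le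
  have hπ := Real.pi_gt_three
  have : (1 - 1 / 100000) * ((1 - qq) / (1 + qq)) / Real.pi ≤ 1 := by
    rw [div_le_one Real.pi_pos]
    nlinarith
  nlinarith

lemma ev_small (c e : ℝ) (he : 0 < e) :
    ∀ᶠ s : ℕ in atTop, c * Real.exp (-(2 * (64 : ℝ) ^ s)) ≤ e := by
  have h1 : Tendsto (fun s : ℕ => (64 : ℝ) ^ s) atTop atTop :=
    tendsto_pow_atTop_atTop_of_one_lt (by norm_num)
  have h2 : Tendsto (fun s : ℕ => c * Real.exp (-(2 * (64 : ℝ) ^ s))) atTop (nhds (c * 0)) := by
    apply Tendsto.const_mul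
    exact Real.tendsto_exp_neg_atTop_nhds_zero.comp (h1.const_mul_atTop (by norm_num))
  rw [mul_zero] at h2
  exact (h2.eventually (gt_mem_nhds he)).mono fun s hs => hs.le

lemma ev_small2 (e : ℝ) (he : 0 < e) :
    ∀ᶠ s : ℕ in atTop, Real.exp (-((64 : ℝ) ^ s / 2)) * (80 * 8 ^ (20 * s)) ≤ e := by
  have h1 : Tendsto (fun s : ℕ => (64 : ℝ) ^ s) atTop atTop :=
    tendsto_pow_atTop_atTop_of_one_lt (by norm_num)
  have h2 : Tendsto (fun s : ℕ => (64 : ℝ) ^ s / 2) atTop atTop :=
    h1.atTop_div_const (by norm_num)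
  have h3 := (Real.tendsto_pow_mul_exp_neg_atTop_nhds_zero 10).comp h2
  have h4 : Tendsto (fun s : ℕ => (80 * 2 ^ 10 : ℝ) * (((64 : ℝ) ^ s / 2) ^ 10 *
      Real.exp (-((64 : ℝ) ^ s / 2)))) atTop (nhds ((80 * 2 ^ 10) * 0)) :=
    Tendsto.const_mul _ h3
  rw [mul_zero] at h4
  refine (h4.eventually (gt_mem_nhds he)).mono fun s hs => ?_
  refine le_of_eq_of_le ?_ hs.le
  have : (8 : ℝ) ^ (20 * s) = ((64 : ℝ) ^ s) ^ 10 := by
    rw [← pow_mul, show (64 : ℝ) = 8 ^ 2 by norm_num, ← pow_mul]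
    congr 1
    ring
  rw [this]
  ring

lemma ev_a (e : ℝ) (he : 0 < e) : ∃ a : ℕ, 1 ≤ a ∧ 230400 * qq ^ (a + 1) ≤ e := by
  have h1 : Tendsto (fun a : ℕ => 230400 * qq ^ (a + 1)) atTop (nhds (230400 * 0)) :=
    ((tendsto_pow_atTop_nhds_zero_of_lt_one qq_pos.le qq_lt_one).comp
      (tendsto_add_atTop_nat 1)).const_mul _
  rw [mul_zero] at h1
  obtain ⟨a, ha1, ha2⟩ := ((h1.eventually (gt_mem_nhds he)).and (eventually_ge_atTop 1)).exists
  exact ⟨a, ha2, ha1.le⟩

/-- first moment: under the shifted law many sign changes have positive probability -/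
theorem first (hp : S_pair) (ha : S_plant_abs) (hng : S_plant_neg) (hpp : S_plant_pos)
    (hc : S_cheb) :
    ∃ (a : ℕ) (p0 : ℝ), 0 < p0 ∧ ∀ᶠ s : ℕ in atTop, ∃ a' b : ℕ, a ≤ a' ∧
      (∀ t ≤ 20 * s, gz t ≤ gy qq a') ∧ ∀ n : ℕ, 64 ^ (8040 * s) ≤ n →
        p0 ≤ mu.real {ω | (s : ℝ) * (32160 * lam + 1) <
          (SC n (ω + sh n (plant 40 (20 * s))) (gy qq) gz a a' b 1 (20 * s) : ℝ)} := by
  have hd0 := dd_pos
  set d := (1 - qq) / (1 + qq) with hd
  have he1 : 0 < 1 / 800000 * d := by positivity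
  obtain ⟨a, ha1, ha2⟩ := ev_a (3 * (1 / 800000 * d) ^ 2) (by positivity)
  refine ⟨a, 1 / (12 * 100000 * 8039 + 20), by norm_num, ?_⟩
  have E1 := ev_small 4 (1 / 100000 * d ^ 2) (by positivity)
  have E2 := ev_small 1 (1 / 4) (by norm_num)
  have E3 := ev_small2 (1 / 800000 * d) he1
  have E4 := tendsto_natCast_atTop_atTop (R := ℝ) |>.eventually
    (eventually_ge_atTop ((4 + 3 * (a : ℝ) + 300000 * a + 1) / (3 / 10)))
  filter_upwards [E1, E2, E3, E4, eventually_ge_atTop 1] with s E1 E2 E3 E4 hs1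
  obtain ⟨b, hb⟩ : ∃ b, b + 1 = 300000 * (8039 * s) := ⟨300000 * (8039 * s) - 1, by omega⟩
  have hq0 := qq_pos
  have hq1 := qq_lt_one
  have h64 : (0 : ℝ) < 64 ^ (20 * s) := by positivity
  have hqa' : qq ^ (300000 * (20 * s + a)) = (1 / 64) ^ a * (1 / 64 ^ (20 * s)) := by
    rw [qq_pow_mul, pow_add, mul_comm]
    congr 1
    rw [div_pow, one_pow]
  have hqa : (1 / 64 : ℝ) ^ a ≤ qq ^ (a + 1) := by
    rw [← qq_pow, ← pow_mul]
    exact pow_le_pow_of_le_one hq0.le hq1.le (by omega)
  refine ⟨300000 * (20 * s + a), b, by omega, ?_, ?_⟩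
  · -- the coarse grid lies before the fine grid
    intro t ht
    have h1 : gz t ≤ gz (20 * s) := gz_strictMono.monotone ht
    refine le_trans h1 ?_
    have h2 := one_sub_gz (20 * s)
    have h3 := one_sub_gy hq0 hq1 (300000 * (20 * s + a))
    have h4 : 1 - gy qq (300000 * (20 * s + a)) ≤ 1 - gz (20 * s) := by
      rw [h2, h3]
      have hQ : 0 < qq ^ (300000 * (20 * s + a) + 1) := by positivity
      have hQ2 : qq ^ (300000 * (20 * s + a) + 1) ≤ 1 / (64 * 64 ^ (20 * s)) := by
        calc qq ^ (300000 * (20 * s + a) + 1) ≤ qq ^ (300000 * (20 * s + a)) :=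
              pow_le_pow_of_le_one hq0.le hq1.le (by omega)
          _ = (1 / 64) ^ a * (1 / 64 ^ (20 * s)) := hqa'
          _ ≤ (1 / 64) ^ 1 * (1 / 64 ^ (20 * s)) := by
              apply mul_le_mul_of_nonneg_right _ (by positivity)
              exact pow_le_pow_of_le_one (by norm_num) (by norm_num) ha1
          _ = _ := by rw [pow_one, div_mul_div_comm, one_mul]
      have h5 : (1 : ℝ) ≤ 64 ^ (20 * s) := one_le_pow₀ (by norm_num)
      calc 2 * qq ^ (300000 * (20 * s + a) + 1) / (1 + qq ^ (300000 * (20 * s + a) + 1))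
          ≤ 2 * qq ^ (300000 * (20 * s + a) + 1) := div_le_self (by positivity) (by linarith)
        _ ≤ 2 * (1 / (64 * 64 ^ (20 * s))) := by linarith
        _ = 2 / (64 * 64 ^ (20 * s)) := by ring
        _ ≤ 2 / (16 * 64 ^ (20 * s) + 1) :=
            div_le_div_of_nonneg_left (by norm_num) (by positivity) (by linarith)
    linarith
  · intro n hn
    have hθ : qq ^ (b + 1) = 1 / 64 ^ (8039 * s) := by
      rw [hb, qq_pow_mul, div_pow, one_pow]
    have hn' : (64 : ℝ) ^ (8040 * s) ≤ n := by exact_mod_cast hn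
    have hsplit : (64 : ℝ) ^ (8040 * s) = 64 ^ s * 64 ^ (8039 * s) := by
      rw [← pow_add]; congr 1; ring
    have h39 : (0 : ℝ) < 64 ^ (8039 * s) := by positivity
    have hbig : 4 * 64 ^ (20 * s) ≤ n := by
      calc 4 * 64 ^ (20 * s) ≤ 64 * 64 ^ (20 * s) := by
            apply Nat.mul_le_mul_right; norm_num
        _ = 64 ^ (20 * s + 1) := by rw [pow_succ]; ring
        _ ≤ 64 ^ (8040 * s) := Nat.pow_le_pow_right (by norm_num) (by omega)
        _ ≤ n := hn
    have t1 : 2 * (64 : ℝ) ^ s ≤ ((2 * (n + 1) : ℕ) : ℝ) * qq ^ (b + 1) := by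
      rw [hθ, mul_one_div, le_div_iff₀ h39]
      push_cast
      nlinarith
    have t2 : (64 : ℝ) ^ s / 2 ≤ ((n - 2 * 64 ^ (20 * s) : ℕ) : ℝ) * qq ^ (b + 1) := by
      rw [hθ, mul_one_div, le_div_iff₀ h39]
      have h6 : (n : ℝ) / 2 ≤ ((n - 2 * 64 ^ (20 * s) : ℕ) : ℝ) := by
        rw [Nat.cast_sub (by omega)]
        have : (4 * 64 ^ (20 * s) : ℝ) ≤ n := by exact_mod_cast hbig
        push_cast
        linarith
      have h7 : (64 : ℝ) ^ s / 2 * 64 ^ (8039 * s) = 64 ^ (8040 * s) / 2 := by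
        rw [hsplit]; ring
      rw [h7]
      linarith
    have P : Params qq (1 / 100000) (1 / 800000 * d) n (20 * s) a (300000 * (20 * s + a)) b :=
      { q0 := hq0
        q1 := hq1
        e0 := by norm_num
        e1 := by norm_num
        e2 := he1.le
        hn := by omega
        c1 := by
          refine le_trans ?_ E1
          have : Real.exp (-(((2 * (n + 1) : ℕ) : ℝ) * qq ^ (b + 1)))
              ≤ Real.exp (-(2 * (64 : ℝ) ^ s)) := Real.exp_le_exp.mpr (by linarith)
          linarith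
        c2 := by
          refine le_trans ?_ E2
          rw [one_mul]
          exact Real.exp_le_exp.mpr (by linarith)
        c3 := by
          refine le_trans ?_ E3
          exact mul_le_mul_of_nonneg_right (Real.exp_le_exp.mpr (by linarith)) (by positivity)
        c4 := by linarith
        c5 := by
          have h8 : qq ^ (300000 * (20 * s + a) + 1) ≤ qq ^ (a + 1) * (1 / 64 ^ (20 * s)) := by
            calc qq ^ (300000 * (20 * s + a) + 1) ≤ qq ^ (300000 * (20 * s + a)) :=
                  pow_le_pow_of_le_one hq0.le hq1.le (by omega)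
              _ = (1 / 64) ^ a * (1 / 64 ^ (20 * s)) := hqa'
              _ ≤ _ := mul_le_mul_of_nonneg_right hqa (by positivity)
          have h9 : (80 * (8 : ℝ) ^ (20 * s)) ^ 2 = 6400 * 64 ^ (20 * s) := by
            rw [mul_pow, ← pow_mul, mul_comm (20 * s) 2, pow_mul]; norm_num
          rw [h9]
          calc 6400 * 64 ^ (20 * s) * (16 * qq ^ (300000 * (20 * s + a) + 1))
              ≤ 6400 * 64 ^ (20 * s) * (16 * (qq ^ (a + 1) * (1 / 64 ^ (20 * s)))) := by
                apply mul_le_mul_of_nonneg_left _ (by positivity)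
                linarith
            _ = 102400 * qq ^ (a + 1) := by field_simp; norm_num
            _ ≤ 3 * (1 / 800000 * d) ^ 2 := by
                have : 0 < qq ^ (a + 1) := by positivity
                linarith }
    have hE := expect P hp ha hng hpp hc
    have hpdef : (1 - 1 / 100000) * ((1 - qq) / (1 + qq)) / Real.pi - 2 * (1 / 800000 * d) = pp := by
      rw [hd]; rfl
    rw [hpdef] at hE
    have hs0 : (1 : ℝ) ≤ s := by exact_mod_cast hs1
    have hT : (0 : ℝ) < (12 * 100000 * 8039 + 20) * s := by positivity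
    have key := prob_of_expect
      (fun ω => (SC n (ω + sh n (plant 40 (20 * s))) (gy qq) gz a (300000 * (20 * s + a)) b 1
        (20 * s) : ℝ))
      ((measurable_SC n _ _ _ _ _ _ _).comp (measurable_id.add_const _))
      (fun ω => by positivity) ((12 * 100000 * 8039 + 20) * s) (s * (32160 * lam + 1))
      (by
        intro ω
        have h1 := SC_le n (ω + sh n (plant 40 (20 * s))) (gy qq) gz a (300000 * (20 * s + a)) b 1
          (20 * s)
        have h2 : SC n (ω + sh n (plant 40 (20 * s))) (gy qq) gz a (300000 * (20 * s + a)) b 1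
          (20 * s) ≤ (12 * 100000 * 8039 + 20) * s := by omega
        have h3 : ((SC n (ω + sh n (plant 40 (20 * s))) (gy qq) gz a (300000 * (20 * s + a)) b 1
          (20 * s) : ℕ) : ℝ) ≤ (((12 * 100000 * 8039 + 20) * s : ℕ) : ℝ) := by exact_mod_cast h2
        push_cast at h3
        linarith) hT (by have := lam_pos; positivity)
    refine le_trans ?_ key
    rw [div_le_div_iff₀ (by norm_num) hT]
    -- arithmetic
    have g1 : ((b : ℝ) - a) ≤ ((b - a : ℕ) : ℝ) := by
      have : (b : ℝ) ≤ ((b - a : ℕ) : ℝ) + a := by exact_mod_cast (by omega : b ≤ (b - a) + a)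
      linarith
    have g2 : ((b : ℝ) - (300000 * (20 * s + a))) ≤ ((b - 300000 * (20 * s + a) : ℕ) : ℝ) := by
      have : (b : ℝ) ≤ ((b - 300000 * (20 * s + a) : ℕ) : ℝ) + (300000 * (20 * s + a) : ℕ) := by
        exact_mod_cast (by omega : b ≤ (b - 300000 * (20 * s + a)) + 300000 * (20 * s + a))
      push_cast at this
      linarith
    have g3 : (20 * (s : ℝ) - 1) ≤ ((20 * s - 1 : ℕ) : ℝ) := by
      have : (20 * s : ℝ) ≤ ((20 * s - 1 : ℕ) : ℝ) + 1 := by
        exact_mod_cast (by omega : 20 * s ≤ (20 * s - 1) + 1)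
      linarith
    have g4 : (b : ℝ) + 1 = 300000 * (8039 * s) := by exact_mod_cast hb
    have hp0 := pp_nonneg
    have hp1 := pp_le_one
    have g5 : (3 * ((b : ℝ) - a) + (b - (300000 * (20 * s + a)))) * pp ≤
        (3 * ((b - a : ℕ) : ℝ) + ((b - 300000 * (20 * s + a) : ℕ) : ℝ)) * pp :=
      mul_le_mul_of_nonneg_right (by linarith) hp0
    have g6 : (3 * ((b : ℝ) - a) + (b - (300000 * (20 * s + a)))) * pp
        = 32136 * s * (300000 * pp) - (4 + 3 * a + 300000 * a) * pp := by
      have : (b : ℝ) = 300000 * (8039 * s) - 1 := by linarith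
      rw [this]; ring
    have g7 : 32136 * s * (lam * (1 - 1 / 30000)) ≤ 32136 * s * (300000 * pp) :=
      mul_le_mul_of_nonneg_left pp_low (by positivity)
    have g8 : (4 + 3 * (a : ℝ) + 300000 * a) * pp ≤ 4 + 3 * a + 300000 * a :=
      mul_le_of_le_one_right (by positivity) hp1
    have g9 : (4 + 3 * (a : ℝ) + 300000 * a + 1) ≤ 3 / 10 * s := by
      rw [div_le_iff₀ (by norm_num)] at E4
      linarith
    have g10 : (s : ℝ) * lam ≤ s * (6623 / 10000) :=
      mul_le_mul_of_nonneg_left lam_le (by positivity)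
    generalize ∫ ω, (SC n (ω + sh n (plant 40 (20 * s))) (gy qq) gz a
        (300000 * (20 * s + a)) b 1 (20 * s) : ℝ) ∂mu = I at hE ⊢
    have g11 : (s : ℝ) ≤ I - s * (32160 * lam + 1) := by
      have e1 : 32136 * (s : ℝ) * (lam * (1 - 1 / 30000)) = (32136 * (1 - 1 / 30000)) * (s * lam) := by
        ring
      have e2 : (s : ℝ) * (32160 * lam + 1) = 32160 * (s * lam) + s := by ring
      linarith
    linarith

end Pool.Agent.H614.Kac
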