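import Pool.Agent.H614.Kac.Defs

/-! # S19518, job PAIR (helper597): linear forms of a Gaussian sequence, Sheppard's bound -/

set_option autoImplicit false

open MeasureTheory ProbabilityTheory

namespace Pool.Agent.H614.Kac

namespace PairAux

theorem coord_indep : iIndepFun (fun (k : ℕ) (ω : ℕ → ℝ) => ω k) mu :=
  iIndepFun_infinitePi (P := fun _ : ℕ => gaussianReal 0 1) (X := fun _ x => x)
    (fun _ => measurable_id)

theorem coord_law (k : ℕ) : mu.map (fun ω : ℕ → ℝ => ω k) = gaussianReal 0 1 :=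
  Measure.infinitePi_map_eval (fun _ : ℕ => gaussianReal 0 1) k

theorem coord_gauss (k : ℕ) : HasGaussianLaw (fun ω : ℕ → ℝ => ω k) mu where
  isGaussian_map := by
    rw [coord_law]
    infer_instance

theorem coord_joint (M : ℕ) : HasGaussianLaw (fun (ω : ℕ → ℝ) (k : Fin M) => ω k) mu :=
  iIndepFun.hasGaussianLaw (X := fun (k : Fin M) (ω : ℕ → ℝ) => ω k) (fun k => coord_gauss k)
    (coord_indep.precomp Fin.val_injective)

/-- the linear form as a continuous linear map -/
noncomputable def linL (M : ℕ) (w : ℕ → ℝ) : (Fin M → ℝ) →L[ℝ] ℝ :=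
  ∑ k : Fin M, w k • ContinuousLinearMap.proj (R := ℝ) (φ := fun _ : Fin M => ℝ) k

theorem linL_apply (M : ℕ) (w : ℕ → ℝ) (ω : ℕ → ℝ) :
    linL M w (fun k : Fin M => ω k) = lin M w ω := by
  unfold linL lin
  rw [← Fin.sum_univ_eq_sum_range (fun k => w k * ω k) M]
  simp

theorem lin_joint (M : ℕ) (u v : ℕ → ℝ) :
    HasGaussianLaw (fun ω => (lin M u ω, lin M v ω)) mu := by
  have h := (coord_joint M).map_fun ((linL M u).prod (linL M v))
  have e : (fun ω : ℕ → ℝ => ((linL M u).prod (linL M v)) (fun k : Fin M => ω k)) =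
      fun ω => (lin M u ω, lin M v ω) := by
    funext ω
    rw [ContinuousLinearMap.prod_apply, linL_apply, linL_apply]
  rw [← e]
  exact h

theorem lin_gauss (M : ℕ) (w : ℕ → ℝ) : HasGaussianLaw (lin M w) mu :=
  (lin_joint M w w).fst

theorem lin_measurable (M : ℕ) (w : ℕ → ℝ) : Measurable (lin M w) := by
  unfold lin
  fun_prop

theorem coord_memLp (k : ℕ) : MemLp (fun ω : ℕ → ℝ => ω k) 2 mu := (coord_gauss k).memLp_two

theorem coord_mean (k : ℕ) : ∫ ω, ω k ∂mu = 0 := by
  have h := integral_map (μ := mu) (φ := fun ω : ℕ → ℝ => ω k) (f := fun x : ℝ => x)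
    (measurable_pi_apply k).aemeasurable (by fun_prop)
  rw [← h, coord_law]
  exact integral_id_gaussianReal

theorem coord_cov (k l : ℕ) : cov[fun ω : ℕ → ℝ => ω k, fun ω : ℕ → ℝ => ω l; mu] =
    if k = l then 1 else 0 := by
  split_ifs with h
  · subst h
    rw [covariance_self (measurable_pi_apply k).aemeasurable]
    have h1 : Var[id; mu.map (fun ω : ℕ → ℝ => ω k)] = Var[fun ω : ℕ → ℝ => ω k; mu] :=
      variance_id_map (measurable_pi_apply k).aemeasurable
    rw [← h1, coord_law, variance_id_gaussianReal, NNReal.coe_one]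
  · exact (coord_indep.indepFun h).covariance_eq_zero (coord_memLp k) (coord_memLp l)

theorem lin_mean (M : ℕ) (w : ℕ → ℝ) : ∫ ω, lin M w ω ∂mu = 0 := by
  unfold lin
  rw [integral_finsetSum]
  · refine Finset.sum_eq_zero fun k _ => ?_
    rw [integral_const_mul, coord_mean, mul_zero]
  · intro k _
    exact ((coord_gauss k).integrable).const_mul _

theorem lin_cov (M : ℕ) (u v : ℕ → ℝ) : cov[lin M u, lin M v; mu] =
    ∑ k ∈ Finset.range M, u k * v k := by
  unfold lin
  rw [covariance_fun_sum_fun_sum' (fun k _ => (coord_memLp k).const_mul _)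
    (fun k _ => (coord_memLp k).const_mul _)]
  refine Finset.sum_congr rfl fun k hk => ?_
  rw [Finset.sum_eq_single k]
  · rw [covariance_const_mul_left, covariance_const_mul_right, coord_cov, if_pos rfl, mul_one]
  · intro l _ hl
    rw [covariance_const_mul_left, covariance_const_mul_right, coord_cov, if_neg (Ne.symm hl),
      mul_zero, mul_zero]
  · intro h
    exact absurd hk h

theorem lin_var (M : ℕ) (w : ℕ → ℝ) : Var[lin M w; mu] = ∑ k ∈ Finset.range M, w k ^ 2 := by
  rw [← covariance_self (lin_measurable M w).aemeasurable, lin_cov]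
  exact Finset.sum_congr rfl fun k _ => (sq _).symm

end PairAux

open PairAux

/-- The law of a linear form. -/
theorem lin_law (M : ℕ) (w : ℕ → ℝ) :
    mu.map (lin M w) = gaussianReal 0 (Real.toNNReal (∑ k ∈ Finset.range M, w k ^ 2)) := by
  rw [(lin_gauss M w).map_eq_gaussianReal, lin_mean, lin_var]

/-- Chebyshev's inequality for a linear form. -/
theorem cheb (M : ℕ) (w : ℕ → ℝ) {t : ℝ} (ht : 0 < t) :
    mu.real {ω | t ≤ |lin M w ω|} ≤ (∑ k ∈ Finset.range M, w k ^ 2) / t ^ 2 := by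
  have h := meas_ge_le_variance_div_sq (lin_gauss M w).memLp_two ht
  rw [lin_mean, lin_var] at h
  simp only [sub_zero] at h
  have h0 : 0 ≤ (∑ k ∈ Finset.range M, w k ^ 2) / t ^ 2 := by positivity
  unfold Measure.real
  calc (mu {ω | t ≤ |lin M w ω|}).toReal
      ≤ (ENNReal.ofReal ((∑ k ∈ Finset.range M, w k ^ 2) / t ^ 2)).toReal :=
        ENNReal.toReal_mono ENNReal.ofReal_ne_top h
    _ = _ := ENNReal.toReal_ofReal h0

namespace PairAux

/-! ### small ball -/

theorem small_ball (M : ℕ) (u : ℕ → ℝ) (m a : ℝ) (ha : a = ∑ k ∈ Finset.range M, u k ^ 2)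
    (ha0 : 0 < a) : mu.real {ω | |lin M u ω| ≤ |m|} ≤ |m| / Real.sqrt a := by
  have hv : Real.toNNReal a ≠ 0 := by
    rw [Ne, Real.toNNReal_eq_zero]
    linarith
  have h1 : mu {ω | |lin M u ω| ≤ |m|} = gaussianReal 0 (Real.toNNReal a) (Set.Icc (-|m|) |m|) := by
    rw [ha, ← lin_law, Measure.map_apply (lin_measurable M u) measurableSet_Icc]
    congr 1
    ext ω
    simp only [Set.mem_ofPred_eq, Set.mem_preimage, Set.mem_Icc]
    exact abs_le
  have h2 : gaussianReal 0 (Real.toNNReal a) (Set.Icc (-|m|) |m|) ≤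
      ENNReal.ofReal (|m| / Real.sqrt a) := by
    rw [gaussianReal_apply 0 hv]
    calc ∫⁻ x in Set.Icc (-|m|) |m|, gaussianPDF 0 (Real.toNNReal a) x
        ≤ ∫⁻ _ in Set.Icc (-|m|) |m|, ENNReal.ofReal ((Real.sqrt (2 * Real.pi * a))⁻¹) := by
          refine lintegral_mono fun x => ?_
          unfold gaussianPDF
          refine ENNReal.ofReal_le_ofReal ?_
          unfold gaussianPDFReal
          rw [Real.coe_toNNReal a ha0.le]
          refine mul_le_of_le_one_right (by positivity) ?_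
          rw [Real.exp_le_one_iff]
          have : 0 ≤ (x - 0) ^ 2 / (2 * a) := by positivity
          rw [neg_div]
          linarith
      _ = ENNReal.ofReal ((Real.sqrt (2 * Real.pi * a))⁻¹) * ENNReal.ofReal (|m| - -|m|) := by
          rw [setLIntegral_const, Real.volume_Icc]
      _ = ENNReal.ofReal ((Real.sqrt (2 * Real.pi * a))⁻¹ * (|m| - -|m|)) := by
          rw [ENNReal.ofReal_mul (by positivity)]
      _ ≤ ENNReal.ofReal (|m| / Real.sqrt a) := by
          refine ENNReal.ofReal_le_ofReal ?_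
          have h3 : Real.sqrt (2 * Real.pi * a) = Real.sqrt (2 * Real.pi) * Real.sqrt a :=
            Real.sqrt_mul (by positivity) a
          have h4 : 2 ≤ Real.sqrt (2 * Real.pi) := by
            rw [Real.le_sqrt (by norm_num) (by positivity)]
            have := Real.pi_gt_three
            linarith
          have h5 : 0 < Real.sqrt a := Real.sqrt_pos.2 ha0
          have h6 : 0 ≤ |m| := abs_nonneg m
          rw [h3, mul_inv, sub_neg_eq_add, div_eq_mul_inv]
          have h7 : (Real.sqrt (2 * Real.pi))⁻¹ ≤ 1 / 2 := by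
            rw [inv_le_comm₀ (by positivity) (by norm_num), one_div, inv_inv]
            exact h4
          calc (Real.sqrt (2 * Real.pi))⁻¹ * (Real.sqrt a)⁻¹ * (|m| + |m|)
              = (Real.sqrt (2 * Real.pi))⁻¹ * (2 * (|m| * (Real.sqrt a)⁻¹)) := by ring
            _ ≤ 1 / 2 * (2 * (|m| * (Real.sqrt a)⁻¹)) :=
                mul_le_mul_of_nonneg_right h7 (by positivity)
            _ = |m| * (Real.sqrt a)⁻¹ := by ring
  unfold Measure.real
  rw [h1]
  calc (gaussianReal 0 (Real.toNNReal a) (Set.Icc (-|m|) |m|)).toReal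
      ≤ (ENNReal.ofReal (|m| / Real.sqrt a)).toReal :=
        ENNReal.toReal_mono ENNReal.ofReal_ne_top h2
    _ = _ := ENNReal.toReal_ofReal (by positivity)

/-! ### sectors -/

/-- the standard Gaussian measure of the plane -/
noncomputable def γ : Measure (ℝ × ℝ) := (gaussianReal 0 1).prod (gaussianReal 0 1)

/-- the density on the circle of radius `ρ`, with the Jacobian -/
noncomputable def g (ρ : ℝ) : ENNReal :=
  ENNReal.ofReal ρ * ENNReal.ofReal ((2 * Real.pi)⁻¹ * Real.exp (-(ρ ^ 2) / 2))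

theorem g_measurable : Measurable g := by
  unfold g
  fun_prop

theorem γ_apply {A : Set (ℝ × ℝ)} (hA : MeasurableSet A) :
    γ A = ∫⁻ p in polarCoord.target, g p.1 * A.indicator (fun _ => (1 : ENNReal))
      (polarCoord.symm p) := by
  have hγ : γ = (volume : Measure (ℝ × ℝ)).withDensity
      (fun p => gaussianPDF 0 1 p.1 * gaussianPDF 0 1 p.2) := by
    unfold γ
    rw [gaussianReal_of_var_ne_zero 0 one_ne_zero, prod_withDensity (by fun_prop) (by fun_prop)]
    rfl
  rw [hγ, withDensity_apply _ hA, ← lintegral_indicator hA]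
  rw [← lintegral_comp_polarCoord_symm]
  refine setLIntegral_congr_fun polarCoord.open_target.measurableSet fun p hp => ?_
  rw [polarCoord_target] at hp
  have hp0 : 0 < p.1 := hp.1
  simp only [smul_eq_mul]
  by_cases h : polarCoord.symm p ∈ A
  · rw [Set.indicator_of_mem h, Set.indicator_of_mem h, mul_one]
    unfold g gaussianPDF
    rw [← ENNReal.ofReal_mul (gaussianPDFReal_nonneg _ _ _)]
    congr 2
    unfold gaussianPDFReal
    rw [polarCoord_symm_apply]
    simp only [NNReal.coe_one, mul_one, sub_zero]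
    have h2 : (Real.sqrt (2 * Real.pi))⁻¹ * Real.exp (-(p.1 * Real.cos p.2) ^ 2 / 2) *
        ((Real.sqrt (2 * Real.pi))⁻¹ * Real.exp (-(p.1 * Real.sin p.2) ^ 2 / 2)) =
        (Real.sqrt (2 * Real.pi) * Real.sqrt (2 * Real.pi))⁻¹ *
          (Real.exp (-(p.1 * Real.cos p.2) ^ 2 / 2) * Real.exp (-(p.1 * Real.sin p.2) ^ 2 / 2)) := by
      rw [mul_inv]
      ring
    rw [h2, Real.mul_self_sqrt (by positivity), ← Real.exp_add]
    congr 2
    have h3 := Real.sin_sq_add_cos_sq p.2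
    have h4 : -(p.1 * Real.cos p.2) ^ 2 / 2 + -(p.1 * Real.sin p.2) ^ 2 / 2 =
        -(p.1 ^ 2 * (Real.sin p.2 ^ 2 + Real.cos p.2 ^ 2)) / 2 := by ring
    rw [h4, h3, mul_one]
  · rw [Set.indicator_of_notMem h, Set.indicator_of_notMem h, mul_zero, mul_zero]

theorem rect {T : Set ℝ} :
    ∫⁻ p in Set.Ioi (0 : ℝ) ×ˢ T, g p.1 = (∫⁻ ρ in Set.Ioi (0 : ℝ), g ρ) * volume T := by
  rw [Measure.volume_eq_prod, setLIntegral_prod (fun p : ℝ × ℝ => g p.1)
    (g_measurable.comp measurable_fst).aemeasurable]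
  simp only [setLIntegral_const]
  rw [lintegral_mul_const _ g_measurable]

theorem g_total : (∫⁻ ρ in Set.Ioi (0 : ℝ), g ρ) * ENNReal.ofReal (2 * Real.pi) = 1 := by
  have h1 : γ Set.univ = 1 := by
    unfold γ
    exact measure_univ
  rw [γ_apply MeasurableSet.univ] at h1
  simp only [Set.indicator_univ, mul_one] at h1
  rw [polarCoord_target, rect, Real.volume_Ioo] at h1
  rw [← h1]
  congr 2
  ring

theorem sector_meas (x y : ℝ) :
    MeasurableSet {p : ℝ × ℝ | 0 < p.1 ∧ x * p.1 + y * p.2 < 0} :=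
  (measurableSet_lt measurable_const measurable_fst).inter
    (measurableSet_lt ((measurable_fst.const_mul x).add (measurable_snd.const_mul y))
      measurable_const)

theorem sector {θ₀ : ℝ} (h0 : 0 ≤ θ₀) (h1 : θ₀ ≤ Real.pi) :
    ENNReal.ofReal (θ₀ / (2 * Real.pi)) ≤
      γ {p | 0 < p.1 ∧ Real.cos θ₀ * p.1 + Real.sin θ₀ * p.2 < 0} := by
  have hpi := Real.pi_pos
  have hA := sector_meas (Real.cos θ₀) (Real.sin θ₀)
  rw [γ_apply hA]
  have hsub : Set.Ioi (0 : ℝ) ×ˢ Set.Ioo (-(Real.pi / 2)) (-(Real.pi / 2) + θ₀) ⊆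
      polarCoord.target := by
    rw [polarCoord_target]
    rintro ⟨ρ, θ⟩ ⟨hρ, hθ⟩
    refine ⟨hρ, ?_, ?_⟩
    · have := hθ.1
      simp only at this
      show -Real.pi < θ
      linarith
    · have := hθ.2
      simp only at this
      show θ < Real.pi
      linarith
  calc ENNReal.ofReal (θ₀ / (2 * Real.pi))
      = ((∫⁻ ρ in Set.Ioi (0 : ℝ), g ρ) * ENNReal.ofReal (2 * Real.pi)) *
          ENNReal.ofReal (θ₀ / (2 * Real.pi)) := by rw [g_total, one_mul]
    _ = (∫⁻ ρ in Set.Ioi (0 : ℝ), g ρ) * ENNReal.ofReal θ₀ := by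
        rw [mul_assoc, ← ENNReal.ofReal_mul (by positivity)]
        congr 2
        field_simp
    _ = (∫⁻ ρ in Set.Ioi (0 : ℝ), g ρ) *
          volume (Set.Ioo (-(Real.pi / 2)) (-(Real.pi / 2) + θ₀)) := by
        rw [Real.volume_Ioo]
        congr 2
        ring
    _ = ∫⁻ p in Set.Ioi (0 : ℝ) ×ˢ Set.Ioo (-(Real.pi / 2)) (-(Real.pi / 2) + θ₀), g p.1 :=
        rect.symm
    _ = ∫⁻ p in Set.Ioi (0 : ℝ) ×ˢ Set.Ioo (-(Real.pi / 2)) (-(Real.pi / 2) + θ₀), g p.1 *
          {p : ℝ × ℝ | 0 < p.1 ∧ Real.cos θ₀ * p.1 + Real.sin θ₀ * p.2 < 0}.indicator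
            (fun _ => (1 : ENNReal)) (polarCoord.symm p) := by
        refine setLIntegral_congr_fun (measurableSet_Ioi.prod measurableSet_Ioo) fun p hp => ?_
        obtain ⟨hρ, hθ⟩ := hp
        have hρ' : 0 < p.1 := hρ
        have hθ1 : -(Real.pi / 2) < p.2 := hθ.1
        have hθ2 : p.2 < -(Real.pi / 2) + θ₀ := hθ.2
        rw [Set.indicator_of_mem, mul_one]
        rw [polarCoord_symm_apply]
        constructor
        · exact mul_pos hρ' (Real.cos_pos_of_mem_Ioo ⟨hθ1, by linarith⟩)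
        · have h2 : Real.cos (θ₀ - p.2) < 0 :=
            Real.cos_neg_of_pi_div_two_lt_of_lt (by linarith) (by linarith)
          have h3 : Real.cos θ₀ * (p.1 * Real.cos p.2) + Real.sin θ₀ * (p.1 * Real.sin p.2) =
              p.1 * Real.cos (θ₀ - p.2) := by
            rw [Real.cos_sub]
            ring
          show Real.cos θ₀ * (p.1 * Real.cos p.2) + Real.sin θ₀ * (p.1 * Real.sin p.2) < 0
          rw [h3]
          exact mul_neg_of_pos_of_neg hρ' h2
    _ ≤ _ := lintegral_mono_set hsub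

/-! ### one half of the event -/

theorem lin_smul_sub (M : ℕ) (u v : ℕ → ℝ) (x y : ℝ) (ω : ℕ → ℝ) :
    lin M (fun k => x * v k - y * u k) ω = x * lin M v ω - y * lin M u ω := by
  unfold lin
  rw [Finset.mul_sum, Finset.mul_sum, ← Finset.sum_sub_distrib]
  exact Finset.sum_congr rfl fun k _ => by ring

theorem lin_smul (M : ℕ) (u : ℕ → ℝ) (x : ℝ) (ω : ℕ → ℝ) :
    lin M (fun k => x * u k) ω = x * lin M u ω := by
  unfold lin
  rw [Finset.mul_sum]
  exact Finset.sum_congr rfl fun k _ => by ring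

theorem half (M : ℕ) (u v : ℕ → ℝ) (a b c : ℝ)
    (ha : a = ∑ k ∈ Finset.range M, u k ^ 2) (hb : b = ∑ k ∈ Finset.range M, v k ^ 2)
    (hc : c = ∑ k ∈ Finset.range M, u k * v k) (ha0 : 0 < a) (hb0 : 0 < b)
    (hs : 0 < 1 - c ^ 2 / (a * b)) :
    Real.sqrt (1 - c ^ 2 / (a * b)) / (2 * Real.pi) ≤
      mu.real {ω | 0 < lin M u ω ∧ lin M v ω < 0} := by
  have hpi := Real.pi_pos
  set r := c / Real.sqrt (a * b) with hr
  set s := Real.sqrt (1 - c ^ 2 / (a * b)) with hsdef
  have hab : 0 < a * b := mul_pos ha0 hb0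
  have hsab : 0 < Real.sqrt (a * b) := Real.sqrt_pos.2 hab
  have hs0 : 0 < s := Real.sqrt_pos.2 hs
  have hr2 : r ^ 2 = c ^ 2 / (a * b) := by
    rw [hr, div_pow, Real.sq_sqrt hab.le]
  have hs2 : s ^ 2 = 1 - r ^ 2 := by
    rw [hr2, hsdef, Real.sq_sqrt hs.le]
  have hrl : |r| ≤ 1 := by
    rw [← sq_le_one_iff_abs_le_one]
    nlinarith
  have hr1 := abs_le.1 hrl
  set θ := Real.arccos r with hθ
  have hcos : Real.cos θ = r := Real.cos_arccos hr1.1 hr1.2
  have hsin : Real.sin θ = s := by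
    rw [hθ, Real.sin_arccos, hsdef, hr2]
  have hθ0 : 0 ≤ θ := Real.arccos_nonneg r
  have hθ1 : θ ≤ Real.pi := Real.arccos_le_pi r
  have hsθ : s ≤ θ := by
    rw [← hsin]
    exact Real.sin_le hθ0
  have hα : 0 < Real.sqrt a := Real.sqrt_pos.2 ha0
  have hβ : 0 < Real.sqrt b := Real.sqrt_pos.2 hb0
  have hαβ : Real.sqrt (a * b) = Real.sqrt a * Real.sqrt b := Real.sqrt_mul ha0.le b
  have hα2 : Real.sqrt a ^ 2 = a := Real.sq_sqrt ha0.le
  have hβ2 : Real.sqrt b ^ 2 = b := Real.sq_sqrt hb0.le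
  -- the orthonormal forms
  set w₁ : ℕ → ℝ := fun k => (Real.sqrt a)⁻¹ * u k with hw₁
  set w₂ : ℕ → ℝ := fun k => (s * Real.sqrt b)⁻¹ * v k - (r / (s * Real.sqrt a)) * u k with hw₂
  have n1 : ∑ k ∈ Finset.range M, w₁ k ^ 2 = 1 := by
    have : ∑ k ∈ Finset.range M, w₁ k ^ 2 = ((Real.sqrt a)⁻¹) ^ 2 *
        ∑ k ∈ Finset.range M, u k ^ 2 := by
      rw [Finset.mul_sum]
      exact Finset.sum_congr rfl fun k _ => by rw [hw₁]; ring
    rw [this, ← ha, inv_pow, hα2]
    field_simp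
  have n12 : ∑ k ∈ Finset.range M, w₁ k * w₂ k = 0 := by
    have : ∑ k ∈ Finset.range M, w₁ k * w₂ k = (Real.sqrt a)⁻¹ * (s * Real.sqrt b)⁻¹ *
        (∑ k ∈ Finset.range M, u k * v k) - (Real.sqrt a)⁻¹ * (r / (s * Real.sqrt a)) *
        ∑ k ∈ Finset.range M, u k ^ 2 := by
      rw [Finset.mul_sum, Finset.mul_sum, ← Finset.sum_sub_distrib]
      exact Finset.sum_congr rfl fun k _ => by rw [hw₁, hw₂]; ring
    rw [this, ← ha, ← hc, hr, hαβ]
    nth_rewrite 5 [← hα2]
    field_simp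
    ring
  have n2 : ∑ k ∈ Finset.range M, w₂ k ^ 2 = 1 := by
    have : ∑ k ∈ Finset.range M, w₂ k ^ 2 = ((s * Real.sqrt b)⁻¹) ^ 2 *
        (∑ k ∈ Finset.range M, v k ^ 2) - 2 * (s * Real.sqrt b)⁻¹ * (r / (s * Real.sqrt a)) *
        (∑ k ∈ Finset.range M, u k * v k) + (r / (s * Real.sqrt a)) ^ 2 *
        ∑ k ∈ Finset.range M, u k ^ 2 := by
      rw [Finset.mul_sum, Finset.mul_sum, Finset.mul_sum, ← Finset.sum_sub_distrib,
        ← Finset.sum_add_distrib]
      exact Finset.sum_congr rfl fun k _ => by rw [hw₂]; ring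
    rw [this, ← ha, ← hb, ← hc]
    have e1 : ((s * Real.sqrt b)⁻¹) ^ 2 * b = 1 / s ^ 2 := by
      rw [mul_inv, mul_pow, inv_pow, inv_pow, hβ2]
      field_simp
    have e2 : 2 * (s * Real.sqrt b)⁻¹ * (r / (s * Real.sqrt a)) * c = 2 * r ^ 2 / s ^ 2 := by
      have : c = r * (Real.sqrt a * Real.sqrt b) := by
        rw [hr, hαβ]
        field_simp
      rw [this]
      field_simp
    have e3 : (r / (s * Real.sqrt a)) ^ 2 * a = r ^ 2 / s ^ 2 := by
      rw [div_pow, mul_pow, hα2]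
      field_simp
    rw [e1, e2, e3]
    rw [hs2]
    have : 1 - r ^ 2 ≠ 0 := by rw [← hs2]; positivity
    field_simp
    ring
  -- independence
  have hind : IndepFun (lin M w₁) (lin M w₂) mu :=
    (lin_joint M w₁ w₂).indepFun_of_covariance_eq_zero (by
      show cov[lin M w₁, lin M w₂; mu] = 0
      rw [lin_cov, n12])
  have hmap : mu.map (fun ω => (lin M w₁ ω, lin M w₂ ω)) = γ := by
    rw [(indepFun_iff_map_prod_eq_prod_map_map (lin_measurable M w₁).aemeasurable
      (lin_measurable M w₂).aemeasurable).1 hind, lin_law, lin_law, n1, n2, Real.toNNReal_one]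
    rfl
  have hsec := sector hθ0 hθ1
  rw [hcos, hsin, ← hmap, Measure.map_apply ((lin_measurable M w₁).prodMk (lin_measurable M w₂))
    (sector_meas r s)] at hsec
  have hset : (fun ω => (lin M w₁ ω, lin M w₂ ω)) ⁻¹'
      {p : ℝ × ℝ | 0 < p.1 ∧ r * p.1 + s * p.2 < 0} ⊆ {ω | 0 < lin M u ω ∧ lin M v ω < 0} := by
    rintro ω ⟨h1, h2⟩
    have h1' : 0 < lin M w₁ ω := h1
    have h2' : r * lin M w₁ ω + s * lin M w₂ ω < 0 := h2
    rw [hw₁, lin_smul] at h1' h2'
    rw [hw₂, lin_smul_sub] at h2'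
    have h3 : 0 < lin M u ω := by
      by_contra hcon
      have : (Real.sqrt a)⁻¹ * lin M u ω ≤ 0 :=
        mul_nonpos_of_nonneg_of_nonpos (by positivity) (not_lt.1 hcon)
      linarith
    refine ⟨h3, ?_⟩
    have h4 : r * ((Real.sqrt a)⁻¹ * lin M u ω) + s * ((s * Real.sqrt b)⁻¹ * lin M v ω -
        r / (s * Real.sqrt a) * lin M u ω) = (Real.sqrt b)⁻¹ * lin M v ω := by
      field_simp
      ring
    rw [h4] at h2'
    by_contra hcon
    have : 0 ≤ (Real.sqrt b)⁻¹ * lin M v ω := mul_nonneg (by positivity) (not_lt.1 hcon)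
    linarith
  have hfin : ENNReal.ofReal (θ / (2 * Real.pi)) ≤ mu {ω | 0 < lin M u ω ∧ lin M v ω < 0} :=
    hsec.trans (measure_mono hset)
  calc s / (2 * Real.pi) ≤ θ / (2 * Real.pi) := div_le_div_of_nonneg_right hsθ (by positivity)
    _ ≤ _ := (ENNReal.ofReal_le_iff_le_toReal (measure_ne_top _ _)).1 hfin

end PairAux

/-- Sign changes of two Gaussian linear forms with offsets. -/
theorem pair : S_pair := by
  intro M u v m₁ m₂ a b c ha hb hc ha0 hb0
  have hpi := Real.pi_pos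
  have hm1 : 0 ≤ |m₁| / Real.sqrt a := by positivity
  have hm2 : 0 ≤ |m₂| / Real.sqrt b := by positivity
  by_cases hs : 0 < 1 - c ^ 2 / (a * b)
  swap
  · have : Real.sqrt (1 - c ^ 2 / (a * b)) = 0 := Real.sqrt_eq_zero_of_nonpos (not_lt.1 hs)
    rw [this, zero_div]
    have : 0 ≤ mu.real {ω | (lin M u ω + m₁) * (lin M v ω + m₂) < 0} := measureReal_nonneg
    linarith
  have h1 := half M u v a b c ha hb hc ha0 hb0 hs
  have h2 := half M (fun k => (-1) * u k) (fun k => (-1) * v k) a b c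
    (by rw [ha]; exact Finset.sum_congr rfl fun k _ => by ring)
    (by rw [hb]; exact Finset.sum_congr rfl fun k _ => by ring)
    (by rw [hc]; exact Finset.sum_congr rfl fun k _ => by ring) ha0 hb0 hs
  simp only [lin_smul] at h2
  have s1 := small_ball M u m₁ a ha ha0
  have s2 := small_ball M v m₂ b hb hb0
  set E1 : Set (ℕ → ℝ) := {ω | 0 < lin M u ω ∧ lin M v ω < 0} with hE1
  set E2 : Set (ℕ → ℝ) := {ω | 0 < -1 * lin M u ω ∧ -1 * lin M v ω < 0} with hE2
  have mE2 : MeasurableSet E2 :=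
    (measurableSet_lt measurable_const ((lin_measurable M u).const_mul (-1))).inter
      (measurableSet_lt ((lin_measurable M v).const_mul (-1)) measurable_const)
  have hdisj : Disjoint E1 E2 := by
    rw [Set.disjoint_left]
    rintro ω ⟨h, _⟩ ⟨h', _⟩
    linarith
  have hU : mu.real (E1 ∪ E2) = mu.real E1 + mu.real E2 := measureReal_union hdisj mE2
  have hsub : E1 ∪ E2 ⊆ {ω | (lin M u ω + m₁) * (lin M v ω + m₂) < 0} ∪
      ({ω | |lin M u ω| ≤ |m₁|} ∪ {ω | |lin M v ω| ≤ |m₂|}) := by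
    intro ω hω
    by_cases c1 : |lin M u ω| ≤ |m₁|
    · exact Or.inr (Or.inl c1)
    by_cases c2 : |lin M v ω| ≤ |m₂|
    · exact Or.inr (Or.inr c2)
    rw [not_le] at c1 c2
    left
    show (lin M u ω + m₁) * (lin M v ω + m₂) < 0
    have l1 := neg_abs_le m₁
    have l2 := le_abs_self m₁
    have l3 := neg_abs_le m₂
    have l4 := le_abs_self m₂
    rcases hω with ⟨p1, p2⟩ | ⟨p1, p2⟩
    · rw [abs_of_pos p1] at c1
      rw [abs_of_neg p2] at c2
      exact mul_neg_of_pos_of_neg (by linarith) (by linarith)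
    · have q1 : lin M u ω < 0 := by linarith
      have q2 : 0 < lin M v ω := by linarith
      rw [abs_of_neg q1] at c1
      rw [abs_of_pos q2] at c2
      exact mul_neg_of_neg_of_pos (by linarith) (by linarith)
  have hle : mu.real (E1 ∪ E2) ≤ mu.real {ω | (lin M u ω + m₁) * (lin M v ω + m₂) < 0} +
      (mu.real {ω | |lin M u ω| ≤ |m₁|} + mu.real {ω | |lin M v ω| ≤ |m₂|}) :=
    (measureReal_mono hsub).trans ((measureReal_union_le _ _).trans
      (add_le_add_right (measureReal_union_le _ _) _))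
  have hhalf : Real.sqrt (1 - c ^ 2 / (a * b)) / (2 * Real.pi) +
      Real.sqrt (1 - c ^ 2 / (a * b)) / (2 * Real.pi) =
      Real.sqrt (1 - c ^ 2 / (a * b)) / Real.pi := by
    field_simp
    ring
  linarith

end Pool.Agent.H614.Kac
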