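import Pool.Agent.H614.Kac.Defs

/-!
# The planted drift of the Kac polynomial argument: elementary geometric sums

Proves `S_plant_sq`, `S_plant_abs`, `S_plant_neg`, `S_plant_pos` of `Pool.Agent.H614.Kac.Defs`.
-/

set_option autoImplicit false

namespace Pool.Agent.H614.Kac

open Finset

/-- Two blocks `[64^i, 2*64^i)` containing a common point are equal. -/
lemma block_unique {i i' k : ℕ} (h : 64 ^ i ≤ k ∧ k < 2 * 64 ^ i)
    (h' : 64 ^ i' ≤ k ∧ k < 2 * 64 ^ i') : i = i' := by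
  by_contra hne
  rcases Nat.lt_or_gt_of_ne hne with hlt | hlt
  · have h1 : 64 ^ (i + 1) ≤ 64 ^ i' := Nat.pow_le_pow_right (by norm_num) hlt
    rw [pow_succ] at h1
    omega
  · have h1 : 64 ^ (i' + 1) ≤ 64 ^ i := Nat.pow_le_pow_right (by norm_num) hlt
    rw [pow_succ] at h1
    omega

lemma filter_block {i J L : ℕ} (hi : i ≤ J) (hL : 2 * 64 ^ J ≤ L) :
    (range L).filter (fun k => 64 ^ i ≤ k ∧ k < 2 * 64 ^ i) = Ico (64 ^ i) (2 * 64 ^ i) := by
  have h1 : 64 ^ i ≤ 64 ^ J := Nat.pow_le_pow_right (by norm_num) hi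
  ext k
  simp only [mem_filter, mem_range, mem_Ico]
  constructor
  · rintro ⟨_, h⟩; exact h
  · intro h; exact ⟨by omega, h⟩

/-- Exchange of the sums. -/
lemma plant_sum (A : ℝ) (J L : ℕ) (f : ℕ → ℝ) (hL : 2 * 64 ^ J ≤ L) :
    ∑ k ∈ range L, plant A J k * f k
      = ∑ i ∈ Icc 1 J, (A * (-1) ^ i / 8 ^ i) * ∑ k ∈ Ico (64 ^ i) (2 * 64 ^ i), f k := by
  unfold plant
  simp_rw [Finset.sum_mul]
  rw [Finset.sum_comm]
  refine Finset.sum_congr rfl fun i hi => ?_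
  rw [Finset.mul_sum, ← filter_block (mem_Icc.1 hi).2 hL, Finset.sum_filter]
  refine Finset.sum_congr rfl fun k _ => ?_
  split_ifs <;> simp

/-- Inside a block the drift is one term. -/
lemma plant_eq {A : ℝ} {J i k : ℕ} (hi : i ∈ Icc 1 J) (h : 64 ^ i ≤ k ∧ k < 2 * 64 ^ i) :
    plant A J k = A * (-1) ^ i / 8 ^ i := by
  unfold plant
  rw [Finset.sum_eq_single i]
  · rw [if_pos h]
  · intro i' _ hne
    rw [if_neg]
    intro h'
    exact hne (block_unique h' h)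
  · intro h'; exact absurd hi h'

lemma neg_one_pow_sq (i : ℕ) : ((-1 : ℝ) ^ i) ^ 2 = 1 := by
  rw [← pow_mul, mul_comm, pow_mul]; norm_num

lemma pow64 (i : ℕ) : (64 : ℝ) ^ i = 8 ^ i * 8 ^ i := by
  rw [← mul_pow]; norm_num

theorem plant_sq : S_plant_sq := by
  intro A J L hL
  have h1 : ∑ k ∈ range L, plant A J k ^ 2 = ∑ k ∈ range L, plant A J k * plant A J k := by
    refine Finset.sum_congr rfl fun k _ => ?_
    ring
  rw [h1, plant_sum A J L _ hL]
  have h2 : ∀ i ∈ Icc 1 J, (A * (-1) ^ i / 8 ^ i) *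
      ∑ k ∈ Ico (64 ^ i) (2 * 64 ^ i), plant A J k = A ^ 2 := by
    intro i hi
    have h3 : ∑ k ∈ Ico (64 ^ i) (2 * 64 ^ i), plant A J k
        = ∑ k ∈ Ico (64 ^ i) (2 * 64 ^ i), A * (-1) ^ i / 8 ^ i :=
      Finset.sum_congr rfl fun k hk => plant_eq hi (mem_Ico.1 hk)
    rw [h3, Finset.sum_const, Nat.card_Ico, nsmul_eq_mul]
    have h4 : 2 * 64 ^ i - 64 ^ i = 64 ^ i := by omega
    rw [h4]
    push_cast
    rw [pow64]
    have h8 : (8 : ℝ) ^ i ≠ 0 := by positivity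
    field_simp
    rw [neg_one_pow_sq]
    ring
  rw [Finset.sum_congr rfl h2, Finset.sum_const, Nat.card_Icc, nsmul_eq_mul]
  simp [mul_comm]

lemma sum_eight (J : ℕ) : ∑ i ∈ Icc 1 J, (8 : ℝ) ^ i = (8 * 8 ^ J - 8) / 7 := by
  induction J with
  | zero => simp
  | succ n ih => rw [Finset.sum_Icc_succ_top (by omega), ih, pow_succ]; ring

lemma sum_inv_eight (J : ℕ) : ∑ i ∈ Icc 1 J, 1 / (8 : ℝ) ^ i = (1 - 1 / 8 ^ J) / 7 := by
  induction J with
  | zero => simp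
  | succ n ih =>
    rw [Finset.sum_Icc_succ_top (by omega), ih, pow_succ]
    have h8 : (8 : ℝ) ^ n ≠ 0 := by positivity
    field_simp
    ring

theorem plant_abs : S_plant_abs := by
  intro A J L hA
  have h1 : ∀ k, |plant A J k| ≤ ∑ i ∈ Icc 1 J, if 64 ^ i ≤ k ∧ k < 2 * 64 ^ i then A / 8 ^ i else 0 := by
    intro k
    unfold plant
    refine (Finset.abs_sum_le_sum_abs _ _).trans (Finset.sum_le_sum fun i _ => ?_)
    split_ifs with h
    · rw [abs_div, abs_mul, abs_pow, abs_neg, abs_one, one_pow, mul_one, abs_of_nonneg hA,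
        abs_of_pos (by positivity : (0 : ℝ) < 8 ^ i)]
    · simp
  calc ∑ k ∈ range L, |plant A J k|
      ≤ ∑ k ∈ range L, ∑ i ∈ Icc 1 J, (if 64 ^ i ≤ k ∧ k < 2 * 64 ^ i then A / 8 ^ i else 0) :=
        Finset.sum_le_sum fun k _ => h1 k
    _ = ∑ i ∈ Icc 1 J, ∑ k ∈ range L, (if 64 ^ i ≤ k ∧ k < 2 * 64 ^ i then A / 8 ^ i else 0) :=
        Finset.sum_comm
    _ ≤ ∑ i ∈ Icc 1 J, A * 8 ^ i := by
        refine Finset.sum_le_sum fun i _ => ?_
        rw [← Finset.sum_filter, Finset.sum_const, nsmul_eq_mul]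
        have hc : ((range L).filter (fun k => 64 ^ i ≤ k ∧ k < 2 * 64 ^ i)).card ≤ 64 ^ i := by
          calc ((range L).filter (fun k => 64 ^ i ≤ k ∧ k < 2 * 64 ^ i)).card
              ≤ (Ico (64 ^ i) (2 * 64 ^ i)).card := by
                apply Finset.card_le_card
                intro k hk
                exact mem_Ico.2 (mem_filter.1 hk).2
            _ = 64 ^ i := by rw [Nat.card_Ico]; omega
        have hc' : (((range L).filter (fun k => 64 ^ i ≤ k ∧ k < 2 * 64 ^ i)).card : ℝ)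
            ≤ 8 ^ i * 8 ^ i := by
          rw [← pow64]; exact_mod_cast hc
        have h8 : (0 : ℝ) < 8 ^ i := by positivity
        calc (((range L).filter (fun k => 64 ^ i ≤ k ∧ k < 2 * 64 ^ i)).card : ℝ) * (A / 8 ^ i)
            ≤ (8 ^ i * 8 ^ i) * (A / 8 ^ i) :=
              mul_le_mul_of_nonneg_right hc' (by positivity)
          _ = A * 8 ^ i := by field_simp
    _ = A * ((8 * 8 ^ J - 8) / 7) := by rw [← Finset.mul_sum, sum_eight]
    _ ≤ 2 * A * 8 ^ J := by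
        have h8 : (0 : ℝ) < 8 ^ J := by positivity
        nlinarith [mul_nonneg hA h8.le]

theorem plant_neg : S_plant_neg := by
  intro A y J L hA hy0 hy1 hL
  rw [plant_sum A J L _ hL]
  have h1 : ∀ i, |∑ k ∈ Ico (64 ^ i) (2 * 64 ^ i), (-y) ^ k| ≤ 2 := by
    intro i
    have hne : (-y) ≠ 1 := by linarith
    rw [geom_sum_Ico hne (by omega), abs_div]
    have h2 : |(-y) - 1| = 1 + y := by
      rw [show -y - 1 = -(1 + y) by ring, abs_neg, abs_of_nonneg (by linarith)]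
    have h3 : ∀ m : ℕ, |(-y) ^ m| ≤ 1 := by
      intro m
      rw [abs_pow, abs_neg, abs_of_nonneg hy0]
      exact pow_le_one₀ hy0 hy1
    rw [h2, div_le_iff₀ (by linarith)]
    have h4 := abs_sub (((-y) ^ (2 * 64 ^ i))) ((-y) ^ (64 ^ i))
    have h5 := h3 (2 * 64 ^ i)
    have h6 := h3 (64 ^ i)
    linarith
  calc |∑ i ∈ Icc 1 J, (A * (-1) ^ i / 8 ^ i) * ∑ k ∈ Ico (64 ^ i) (2 * 64 ^ i), (-y) ^ k|
      ≤ ∑ i ∈ Icc 1 J, |(A * (-1) ^ i / 8 ^ i) * ∑ k ∈ Ico (64 ^ i) (2 * 64 ^ i), (-y) ^ k| :=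
        Finset.abs_sum_le_sum_abs _ _
    _ ≤ ∑ i ∈ Icc 1 J, (2 * A) * (1 / 8 ^ i) := by
        refine Finset.sum_le_sum fun i _ => ?_
        rw [abs_mul, abs_div, abs_mul, abs_pow, abs_neg, abs_one, one_pow, mul_one,
          abs_of_nonneg hA, abs_of_pos (by positivity : (0 : ℝ) < 8 ^ i)]
        calc A / 8 ^ i * |∑ k ∈ Ico (64 ^ i) (2 * 64 ^ i), (-y) ^ k| ≤ A / 8 ^ i * 2 :=
              mul_le_mul_of_nonneg_left (h1 i) (by positivity)
          _ = (2 * A) * (1 / 8 ^ i) := by ring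
    _ = (2 * A) * ((1 - 1 / 8 ^ J) / 7) := by rw [← Finset.mul_sum, sum_inv_eight]
    _ ≤ 3 * A := by
        have h8 : (0 : ℝ) < 1 / 8 ^ J := by positivity
        nlinarith [mul_nonneg hA h8.le]

/-- Upper bound of a far block. -/
lemma block_upper {y : ℝ} (hy0 : 0 < y) (hy1 : y < 1) (m : ℕ) :
    (∑ k ∈ Ico m (2 * m), y ^ k) * ((m : ℝ) * (1 - y) ^ 2) ≤ 1 := by
  have h1 : (∑ k ∈ Ico m (2 * m), y ^ k) * (1 - y) = y ^ m - y ^ (2 * m) := by
    rw [geom_sum_Ico (by linarith : y ≠ 1) (by omega)]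
    have : y - 1 ≠ 0 := by linarith
    field_simp
    ring
  have h2 : 1 + (m : ℝ) * (1 - y) ≤ (1 + (1 - y)) ^ m :=
    one_add_mul_le_pow (by linarith) m
  have h3 : y ^ m * (1 + (1 - y)) ^ m ≤ 1 := by
    rw [← mul_pow]
    apply pow_le_one₀
    · apply mul_nonneg hy0.le; linarith
    · nlinarith [sq_nonneg (1 - y)]
  have hpm : 0 ≤ y ^ m := by positivity
  have hp2 : 0 ≤ y ^ (2 * m) := by positivity
  have h4 : y ^ m * (1 + (m : ℝ) * (1 - y)) ≤ 1 :=
    (mul_le_mul_of_nonneg_left h2 hpm).trans h3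
  have hm0 : (0 : ℝ) ≤ m := Nat.cast_nonneg m
  have hmy : 0 ≤ (m : ℝ) * (1 - y) := mul_nonneg hm0 (by linarith)
  calc (∑ k ∈ Ico m (2 * m), y ^ k) * ((m : ℝ) * (1 - y) ^ 2)
      = ((∑ k ∈ Ico m (2 * m), y ^ k) * (1 - y)) * ((m : ℝ) * (1 - y)) := by ring
    _ = (y ^ m - y ^ (2 * m)) * ((m : ℝ) * (1 - y)) := by rw [h1]
    _ ≤ y ^ m * ((m : ℝ) * (1 - y)) := by
        apply mul_le_mul_of_nonneg_right _ hmy; linarith
    _ ≤ 1 := by nlinarith

/-- Trivial upper bound of a block. -/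
lemma block_card {y : ℝ} (hy0 : 0 < y) (hy1 : y < 1) (m : ℕ) :
    ∑ k ∈ Ico m (2 * m), y ^ k ≤ m := by
  calc ∑ k ∈ Ico m (2 * m), y ^ k ≤ ∑ k ∈ Ico m (2 * m), (1 : ℝ) :=
        Finset.sum_le_sum fun k _ => pow_le_one₀ hy0.le hy1.le
    _ = m := by
        rw [Finset.sum_const, Nat.card_Ico, nsmul_eq_mul, mul_one]
        congr 1; omega

/-- Lower bound of the main block. -/
lemma block_lower {y : ℝ} (hy0 : 0 < y) (hy1 : y < 1) (m : ℕ) :
    (m : ℝ) * (1 - 2 * m * (1 - y)) ≤ ∑ k ∈ Ico m (2 * m), y ^ k := by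
  have h1 : 1 + ((2 * m : ℕ) : ℝ) * (y - 1) ≤ (1 + (y - 1)) ^ (2 * m) :=
    one_add_mul_le_pow (by linarith) _
  have h2 : (1 : ℝ) - 2 * m * (1 - y) ≤ y ^ (2 * m) := by
    have h3 : 1 + (y - 1) = y := by ring
    rw [h3] at h1
    push_cast at h1
    linarith
  calc (m : ℝ) * (1 - 2 * m * (1 - y)) ≤ m * y ^ (2 * m) :=
        mul_le_mul_of_nonneg_left h2 (Nat.cast_nonneg m)
    _ = ∑ k ∈ Ico m (2 * m), y ^ (2 * m) := by
        rw [Finset.sum_const, Nat.card_Ico, nsmul_eq_mul]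
        congr 2; omega
    _ ≤ ∑ k ∈ Ico m (2 * m), y ^ k := by
        refine Finset.sum_le_sum fun k hk => ?_
        exact pow_le_pow_of_le_one hy0.le hy1.le (mem_Ico.1 hk).2.le

lemma sum_tail (j : ℕ) (J : ℕ) (hj : j ≤ J) :
    ∑ i ∈ Icc (j + 1) J, 1 / (512 : ℝ) ^ i = (1 / 512 ^ j - 1 / 512 ^ J) / 511 := by
  induction J, hj using Nat.le_induction with
  | base => simp
  | succ n hn ih =>
    rw [Finset.sum_Icc_succ_top (by omega), ih, pow_succ]
    have h8 : (512 : ℝ) ^ n ≠ 0 := by positivity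
    have h9 : (512 : ℝ) ^ j ≠ 0 := by positivity
    field_simp
    ring

theorem plant_pos : S_plant_pos := by
  intro A J L j hA hj1 hjJ hL
  rw [plant_sum A J L _ hL]
  set z : ℝ := 64 ^ j with hz
  have hz64 : (64 : ℝ) ≤ z := by
    calc (64 : ℝ) = 64 ^ 1 := by norm_num
      _ ≤ 64 ^ j := pow_le_pow_right₀ (by norm_num) hj1
  set y : ℝ := (16 * z - 1) / (16 * z + 1) with hy
  have hy1' : 1 - y = 2 / (16 * z + 1) := by
    rw [hy]
    have : (16 * z + 1) ≠ 0 := by linarith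
    field_simp
    ring
  have hy1 : y < 1 := by
    have : 0 < 1 - y := by rw [hy1']; positivity
    linarith
  have hy0 : 0 < y := by
    rw [hy]; apply div_pos <;> linarith
  have hup : 1 - y ≤ 1 / (8 * z) := by
    rw [hy1', div_le_div_iff₀ (by linarith) (by linarith)]; linarith
  have hlow : 2 / (17 * z) ≤ 1 - y := by
    rw [hy1', div_le_div_iff₀ (by linarith) (by linarith)]; linarith
  -- block sums
  set S : ℕ → ℝ := fun i => ∑ k ∈ Ico (64 ^ i) (2 * 64 ^ i), y ^ k with hS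
  have hSnn : ∀ i, 0 ≤ S i := fun i => Finset.sum_nonneg fun k _ => by positivity
  have hSc : ∀ i, S i ≤ 8 ^ i * 8 ^ i := by
    intro i
    have := block_card hy0 hy1 (64 ^ i)
    rw [← pow64]; push_cast at this; exact this
  have hSj : 3 / 4 * (8 ^ j * 8 ^ j) ≤ S j := by
    have h1 := block_lower hy0 hy1 (64 ^ j)
    push_cast at h1
    rw [← hz] at h1
    have h2 : 2 * z * (1 - y) ≤ 1 / 4 := by
      calc 2 * z * (1 - y) ≤ 2 * z * (1 / (8 * z)) :=
            mul_le_mul_of_nonneg_left hup (by linarith)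
        _ = 1 / 4 := by
            have : z ≠ 0 := by linarith
            field_simp
            norm_num
    have h3 : z * (3 / 4) ≤ z * (1 - 2 * z * (1 - y)) :=
      mul_le_mul_of_nonneg_left (by linarith) (by linarith)
    rw [← pow64, ← hz]
    linarith
  have hSi : ∀ i, S i ≤ (289 / 4) * z ^ 2 / (8 ^ i * 8 ^ i) := by
    intro i
    have h1 := block_upper hy0 hy1 (64 ^ i)
    push_cast at h1
    rw [pow64] at h1
    have h8 : (0 : ℝ) < 8 ^ i * 8 ^ i := by positivity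
    rw [le_div_iff₀ h8]
    have h2 : (2 / (17 * z)) ^ 2 ≤ (1 - y) ^ 2 := by
      apply pow_le_pow_left₀ _ hlow
      positivity
    have h3 : S i * (8 ^ i * 8 ^ i) * (2 / (17 * z)) ^ 2 ≤ 1 := by
      calc S i * (8 ^ i * 8 ^ i) * (2 / (17 * z)) ^ 2
          ≤ S i * (8 ^ i * 8 ^ i) * (1 - y) ^ 2 :=
            mul_le_mul_of_nonneg_left h2 (mul_nonneg (hSnn i) h8.le)
        _ = S i * ((8 ^ i * 8 ^ i) * (1 - y) ^ 2) := by ring
        _ ≤ 1 := h1
    have hzne : z ≠ 0 := by linarith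
    calc S i * (8 ^ i * 8 ^ i)
        = (S i * (8 ^ i * 8 ^ i) * (2 / (17 * z)) ^ 2) * ((289 / 4) * z ^ 2) := by
          field_simp; ring
      _ ≤ 1 * ((289 / 4) * z ^ 2) :=
          mul_le_mul_of_nonneg_right h3 (by positivity)
      _ = (289 / 4) * z ^ 2 := one_mul _
  -- split the sum
  have hsplit : (-1 : ℝ) ^ j * ∑ i ∈ Icc 1 J, (A * (-1) ^ i / 8 ^ i) * S i
      = ∑ i ∈ Icc 1 J, (-1 : ℝ) ^ (j + i) * (A / 8 ^ i * S i) := by
    rw [Finset.mul_sum]
    refine Finset.sum_congr rfl fun i _ => ?_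
    rw [pow_add]; ring
  have hge : ∀ i, -(A / 8 ^ i * S i) ≤ (-1 : ℝ) ^ (j + i) * (A / 8 ^ i * S i) := by
    intro i
    have hnn : 0 ≤ A / 8 ^ i * S i := mul_nonneg (by positivity) (hSnn i)
    rcases neg_one_pow_eq_or ℝ (j + i) with h | h <;> rw [h] <;> linarith
  have hIcc : Icc 1 J = Icc 1 (j - 1) ∪ ({j} ∪ Icc (j + 1) J) := by
    ext i
    simp only [mem_Icc, mem_union, mem_singleton]
    omega
  have hd1 : Disjoint (Icc 1 (j - 1)) ({j} ∪ Icc (j + 1) J) := by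
    rw [Finset.disjoint_left]
    intro i hi hi'
    simp only [mem_Icc, mem_union, mem_singleton] at hi hi'
    omega
  have hd2 : Disjoint ({j} : Finset ℕ) (Icc (j + 1) J) := by
    rw [Finset.disjoint_left]
    intro i hi hi'
    simp only [mem_Icc, mem_singleton] at hi hi'
    omega
  have hlo : ∑ i ∈ Icc 1 (j - 1), (A / 8 ^ i * S i) ≤ A * (8 ^ j / 7) := by
    calc ∑ i ∈ Icc 1 (j - 1), (A / 8 ^ i * S i)
        ≤ ∑ i ∈ Icc 1 (j - 1), A * 8 ^ i := by
          refine Finset.sum_le_sum fun i _ => ?_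
          calc A / 8 ^ i * S i ≤ A / 8 ^ i * (8 ^ i * 8 ^ i) :=
                mul_le_mul_of_nonneg_left (hSc i) (by positivity)
            _ = A * 8 ^ i := by field_simp
      _ = A * ((8 * 8 ^ (j - 1) - 8) / 7) := by rw [← Finset.mul_sum, sum_eight]
      _ ≤ A * (8 ^ j / 7) := by
          apply mul_le_mul_of_nonneg_left _ hA
          have : (8 : ℝ) ^ j = 8 * 8 ^ (j - 1) := by
            conv_lhs => rw [show j = (j - 1) + 1 by omega, pow_succ]
            ring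
          rw [this]
          linarith
  have hhi : ∑ i ∈ Icc (j + 1) J, (A / 8 ^ i * S i) ≤ A * (289 / 2044 * 8 ^ j) := by
    calc ∑ i ∈ Icc (j + 1) J, (A / 8 ^ i * S i)
        ≤ ∑ i ∈ Icc (j + 1) J, (A * ((289 / 4) * z ^ 2)) * (1 / 512 ^ i) := by
          refine Finset.sum_le_sum fun i _ => ?_
          calc A / 8 ^ i * S i ≤ A / 8 ^ i * ((289 / 4) * z ^ 2 / (8 ^ i * 8 ^ i)) :=
                mul_le_mul_of_nonneg_left (hSi i) (by positivity)
            _ = (A * ((289 / 4) * z ^ 2)) * (1 / 512 ^ i) := by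
                have h512 : (512 : ℝ) ^ i = 8 ^ i * 8 ^ i * 8 ^ i := by
                  rw [← mul_pow, ← mul_pow]; norm_num
                rw [h512]
                have h8 : (8 : ℝ) ^ i ≠ 0 := by positivity
                field_simp
      _ = (A * ((289 / 4) * z ^ 2)) * ((1 / 512 ^ j - 1 / 512 ^ J) / 511) := by
          rw [← Finset.mul_sum, sum_tail j J hjJ]
      _ ≤ (A * ((289 / 4) * z ^ 2)) * ((1 / 512 ^ j) / 511) := by
          apply mul_le_mul_of_nonneg_left _ (by positivity)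
          have : (0 : ℝ) < 1 / 512 ^ J := by positivity
          linarith
      _ = A * (289 / 2044 * 8 ^ j) := by
          have h512 : (512 : ℝ) ^ j = 8 ^ j * 8 ^ j * 8 ^ j := by
            rw [← mul_pow, ← mul_pow]; norm_num
          rw [h512, hz, pow64]
          have h8 : (8 : ℝ) ^ j ≠ 0 := by positivity
          field_simp
          ring
  have hmain : A * (3 / 4 * 8 ^ j) ≤ A / 8 ^ j * S j := by
    calc A * (3 / 4 * 8 ^ j) = A / 8 ^ j * (3 / 4 * (8 ^ j * 8 ^ j)) := by field_simp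
      _ ≤ A / 8 ^ j * S j := mul_le_mul_of_nonneg_left hSj (by positivity)
  change _ ≤ (-1 : ℝ) ^ j * ∑ i ∈ Icc 1 J, (A * (-1) ^ i / 8 ^ i) * S i
  rw [hsplit, hIcc, Finset.sum_union hd1, Finset.sum_union hd2, Finset.sum_singleton]
  have e1 : (-1 : ℝ) ^ (j + j) = 1 := by
    rw [← two_mul, pow_mul]; norm_num
  rw [e1, one_mul]
  have g1 : -(∑ i ∈ Icc 1 (j - 1), (A / 8 ^ i * S i))
      ≤ ∑ i ∈ Icc 1 (j - 1), (-1 : ℝ) ^ (j + i) * (A / 8 ^ i * S i) := by
    rw [← Finset.sum_neg_distrib]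
    exact Finset.sum_le_sum fun i _ => hge i
  have g2 : -(∑ i ∈ Icc (j + 1) J, (A / 8 ^ i * S i))
      ≤ ∑ i ∈ Icc (j + 1) J, (-1 : ℝ) ^ (j + i) * (A / 8 ^ i * S i) := by
    rw [← Finset.sum_neg_distrib]
    exact Finset.sum_le_sum fun i _ => hge i
  have h8j : 0 ≤ A * 8 ^ j := by positivity
  nlinarith [hmain, hlo, hhi, g1, g2, h8j]

end Pool.Agent.H614.Kac
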