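import Mathlib
import Pool.Agent.H614.Kac.Defs

set_option autoImplicit false

namespace Pool.Agent.H614.Kac

/-- General counting lemma. -/
theorem sc_le_card (F : ℝ → ℝ) (hF : Continuous F) (y : ℕ → ℝ) (hy : StrictMono y) (a b : ℕ)
    (g : ℝ → ℝ) (S : Finset ℝ)
    (hg : Set.InjOn g (Set.Ioo (y a) (y b)))
    (hS : ∀ x ∈ Set.Ioo (y a) (y b), F x = 0 → g x ∈ S) :
    sc F y a b ≤ S.card := by
  classical
  have key : ∀ t, F (y t) * F (y (t + 1)) < 0 → ∃ r, y t < r ∧ r < y (t + 1) ∧ F r = 0 := by
    intro t ht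
    have hlt : y t < y (t + 1) := hy (Nat.lt_succ_self t)
    have hne0 : F (y t) ≠ 0 := by
      intro h; rw [h] at ht; simp at ht
    have hne1 : F (y (t + 1)) ≠ 0 := by
      intro h; rw [h] at ht; simp at ht
    rcases lt_or_gt_of_ne hne0 with h0 | h0
    · have h1 : 0 < F (y (t + 1)) := by
        by_contra hc
        have hc' : F (y (t + 1)) ≤ 0 := not_lt.mp hc
        have := mul_nonneg_of_nonpos_of_nonpos h0.le hc'
        linarith
      have := intermediate_value_Ioo hlt.le hF.continuousOn (f := F)
      obtain ⟨r, hr, hr0⟩ := this ⟨h0, h1⟩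
      exact ⟨r, hr.1, hr.2, hr0⟩
    · have h1 : F (y (t + 1)) < 0 := by
        by_contra hc
        have hc' : 0 ≤ F (y (t + 1)) := not_lt.mp hc
        have := mul_nonneg h0.le hc'
        linarith
      have := intermediate_value_Ioo' hlt.le hF.continuousOn (f := F)
      obtain ⟨r, hr, hr0⟩ := this ⟨h1, h0⟩
      exact ⟨r, hr.1, hr.2, hr0⟩
  choose! r hr1 hr2 hr3 using key
  unfold sc
  have hmem : ∀ t ∈ ((Finset.Ico a b).filter (fun t => F (y t) * F (y (t + 1)) < 0)),
      r t ∈ Set.Ioo (y a) (y b) := by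
    intro t ht
    rw [Finset.mem_filter, Finset.mem_Ico] at ht
    obtain ⟨⟨hat, htb⟩, hlt⟩ := ht
    refine ⟨lt_of_le_of_lt (hy.monotone hat) (hr1 t hlt), ?_⟩
    exact lt_of_lt_of_le (hr2 t hlt) (hy.monotone htb)
  apply Finset.card_le_card_of_injOn (fun t => g (r t))
  · intro t ht
    have ht' := ht
    rw [Finset.mem_coe, Finset.mem_filter] at ht'
    exact hS (r t) (hmem t ht) (hr3 t ht'.2)
  · intro t ht t' ht' heq
    have h1 := hg (hmem t ht) (hmem t' ht') heq
    rw [Finset.mem_coe, Finset.mem_filter] at ht ht'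
    rcases lt_trichotomy t t' with h | h | h
    · exfalso
      have : r t < r t' := lt_of_lt_of_le (hr2 t ht.2) (le_trans (hy.monotone h) (hr1 t' ht'.2).le)
      exact absurd h1 (ne_of_lt this)
    · exact h
    · exfalso
      have : r t' < r t := lt_of_lt_of_le (hr2 t' ht'.2) (le_trans (hy.monotone h) (hr1 t ht.2).le)
      exact absurd h1 (ne_of_gt this)

theorem rv_eq_inv (n : ℕ) (ω : ℕ → ℝ) (y : ℝ) (hy : y ≠ 0) :
    rv n ω y = y ^ n * ev n ω (y⁻¹) := by
  unfold rv ev
  rw [Finset.mul_sum]
  apply Finset.sum_congr rfl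
  intro k hk
  rw [Finset.mem_range] at hk
  have hk' : k ≤ n := by omega
  have h1 : y ^ n = y ^ (n - k) * y ^ k := by rw [← pow_add]; congr 1; omega
  rw [h1, inv_pow]
  have h2 : y ^ k ≠ 0 := pow_ne_zero _ hy
  field_simp

theorem ev_cont (n : ℕ) (ω : ℕ → ℝ) : Continuous (ev n ω) := by
  unfold ev
  fun_prop

theorem rv_cont (n : ℕ) (ω : ℕ → ℝ) : Continuous (rv n ω) := by
  unfold rv
  fun_prop

theorem roots : S_roots := by
  intro n ω y z a a' b j J hy hy0 hy1 hz hz0 hzy haa
  classical
  set P : Polynomial ℝ :=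
    ∑ i ∈ Finset.range (n + 1), Polynomial.C (ω i) * Polynomial.X ^ i with hP
  have hev : ∀ x, P.eval x = ev n ω x := by
    intro x
    rw [hP, Polynomial.eval_finsetSum]
    unfold ev
    apply Finset.sum_congr rfl
    intro k _
    simp
  by_cases hP0 : P = 0
  · -- all coefficients vanish
    have hω : ∀ k, k < n + 1 → ω k = 0 := by
      intro k hk
      have h1 : P.coeff k = ω k := by
        rw [hP, Polynomial.finsetSum_coeff]
        rw [Finset.sum_eq_single k]
        · simp
        · intro i _ hik
          simp [Polynomial.coeff_X_pow, Ne.symm hik]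
        · intro h
          exact absurd (Finset.mem_range.mpr hk) h
      rw [← h1, hP0]; simp
    have hev0 : ∀ x, ev n ω x = 0 := by
      intro x; rw [← hev x, hP0]; simp
    have hrv0 : ∀ x, rv n ω x = 0 := by
      intro x
      unfold rv
      apply Finset.sum_eq_zero
      intro k hk
      rw [hω k (Finset.mem_range.mp hk)]; simp
    have : SC n ω y z a a' b j J = 0 := by
      unfold SC sc
      simp [hev0, hrv0]
    rw [this]; exact Nat.zero_le _
  · have hmemR : ∀ x, ev n ω x = 0 → x ∈ P.roots.toFinset := by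
      intro x hx
      rw [Multiset.mem_toFinset, Polynomial.mem_roots hP0]
      show P.eval x = 0
      rw [hev, hx]
    set R := P.roots.toFinset with hR
    have hya' : 0 < y a' := hy0 a'
    have h1 : sc (ev n ω) y a b ≤ (R.filter (fun x => 0 < x ∧ x < 1)).card := by
      apply sc_le_card _ (ev_cont n ω) y hy a b id
      · exact Function.injective_id.injOn
      · intro x hx hx0
        rw [Finset.mem_filter]
        exact ⟨hmemR x hx0, lt_trans (hy0 a) hx.1, lt_trans hx.2 (hy1 b)⟩
    have h2 : sc (fun x => ev n ω (-x)) y a b ≤ (R.filter (fun x => -1 < x ∧ x < 0)).card := by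
      apply sc_le_card _ ((ev_cont n ω).comp continuous_neg) y hy a b (fun x => -x)
      · exact neg_injective.injOn
      · intro x hx hx0
        rw [Finset.mem_filter]
        have := lt_trans (hy0 a) hx.1
        have := lt_trans hx.2 (hy1 b)
        exact ⟨hmemR (-x) hx0, by linarith, by linarith⟩
    have h3 : sc (fun x => rv n ω (-x)) y a b ≤ (R.filter (fun x => x < -1)).card := by
      apply sc_le_card _ ((rv_cont n ω).comp continuous_neg) y hy a b (fun x => (-x)⁻¹)
      · intro u _ v _ huv
        have := inv_injective huv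
        exact neg_injective this
      · intro x hx hx0
        rw [Finset.mem_filter]
        have hx1 := lt_trans (hy0 a) hx.1
        have hx2 := lt_trans hx.2 (hy1 b)
        have hne : -x ≠ 0 := neg_ne_zero.mpr hx1.ne'
        have hx0' : rv n ω (-x) = 0 := hx0
        rw [rv_eq_inv n ω (-x) hne] at hx0'
        have h4 : ev n ω ((-x)⁻¹) = 0 := by
          rcases mul_eq_zero.mp hx0' with h | h
          · exact absurd h (pow_ne_zero _ hne)
          · exact h
        refine ⟨hmemR _ h4, ?_⟩
        show (-x)⁻¹ < -1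
        rw [inv_neg]
        have : 1 < x⁻¹ := (one_lt_inv₀ hx1).mpr hx2
        linarith
    have hrest : ∀ x, 0 < x → rv n ω x = 0 → x⁻¹ ∈ R := by
      intro x hx hx0
      rw [rv_eq_inv n ω x hx.ne'] at hx0
      rcases mul_eq_zero.mp hx0 with h | h
      · exact absurd h (pow_ne_zero _ hx.ne')
      · exact hmemR _ h
    have h4 : sc (rv n ω) y a' b ≤ (R.filter (fun x => 1 < x ∧ x < (y a')⁻¹)).card := by
      apply sc_le_card _ (rv_cont n ω) y hy a' b (fun x => x⁻¹)
      · exact inv_injective.injOn
      · intro x hx hx0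
        rw [Finset.mem_filter]
        have hx1 := lt_trans (hy0 a') hx.1
        have hx2 := lt_trans hx.2 (hy1 b)
        refine ⟨hrest x hx1 hx0, (one_lt_inv₀ hx1).mpr hx2, ?_⟩
        exact (inv_lt_inv₀ hx1 hya').mpr hx.1
    have h5 : sc (rv n ω) z j J ≤ (R.filter (fun x => (y a')⁻¹ < x)).card := by
      apply sc_le_card _ (rv_cont n ω) z hz j J (fun x => x⁻¹)
      · exact inv_injective.injOn
      · intro x hx hx0
        rw [Finset.mem_filter]
        have hx1 := lt_trans (hz0 j) hx.1
        have hx2 : x < y a' := lt_of_lt_of_le hx.2 (hzy J le_rfl)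
        exact ⟨hrest x hx1 hx0, (inv_lt_inv₀ hya' hx1).mpr hx2⟩
    have hinv : 1 < (y a')⁻¹ := (one_lt_inv₀ hya').mpr (hy1 a')
    have hsum : (R.filter (fun x => 0 < x ∧ x < 1)).card
        + (R.filter (fun x => -1 < x ∧ x < 0)).card + (R.filter (fun x => x < -1)).card
        + (R.filter (fun x => 1 < x ∧ x < (y a')⁻¹)).card
        + (R.filter (fun x => (y a')⁻¹ < x)).card ≤ R.card := by
      simp only [Finset.card_filter]
      rw [← Finset.sum_add_distrib, ← Finset.sum_add_distrib, ← Finset.sum_add_distrib,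
        ← Finset.sum_add_distrib, Finset.card_eq_sum_ones]
      apply Finset.sum_le_sum
      intro x _
      rcases lt_trichotomy x 0 with hx | hx | hx
      · have e1 : ¬ (0 < x ∧ x < 1) := fun h => by linarith [h.1]
        have e4 : ¬ (1 < x ∧ x < (y a')⁻¹) := fun h => by linarith [h.1]
        have e5 : ¬ ((y a')⁻¹ < x) := fun h => by linarith
        rw [if_neg e1, if_neg e4, if_neg e5]
        by_cases e3 : x < -1
        · have e2 : ¬ (-1 < x ∧ x < 0) := fun h => by linarith [h.1]
          rw [if_pos e3, if_neg e2]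
        · rw [if_neg e3]
          split_ifs <;> omega
      · have e1 : ¬ (0 < x ∧ x < 1) := fun h => by linarith [h.1]
        have e2 : ¬ (-1 < x ∧ x < 0) := fun h => by linarith [h.2]
        have e3 : ¬ (x < -1) := fun h => by linarith
        have e4 : ¬ (1 < x ∧ x < (y a')⁻¹) := fun h => by linarith [h.1]
        have e5 : ¬ ((y a')⁻¹ < x) := fun h => by linarith
        rw [if_neg e1, if_neg e2, if_neg e3, if_neg e4, if_neg e5]
        omega
      · have e2 : ¬ (-1 < x ∧ x < 0) := fun h => by linarith [h.2]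
        have e3 : ¬ (x < -1) := fun h => by linarith
        rw [if_neg e2, if_neg e3]
        by_cases e1 : 0 < x ∧ x < 1
        · have e4 : ¬ (1 < x ∧ x < (y a')⁻¹) := fun h => by linarith [h.1, e1.2]
          have e5 : ¬ ((y a')⁻¹ < x) := fun h => by linarith [e1.2]
          rw [if_pos e1, if_neg e4, if_neg e5]
        · rw [if_neg e1]
          by_cases e5 : (y a')⁻¹ < x
          · have e4 : ¬ (1 < x ∧ x < (y a')⁻¹) := fun h => by linarith [h.2]
            rw [if_pos e5, if_neg e4]
          · rw [if_neg e5]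
            split_ifs <;> omega
    calc SC n ω y z a a' b j J ≤ R.card := by
            unfold SC
            refine le_trans ?_ hsum
            exact Nat.add_le_add (Nat.add_le_add (Nat.add_le_add (Nat.add_le_add h1 h2) h3) h4) h5
      _ ≤ P.roots.card := Multiset.toFinset_card_le _

end Pool.Agent.H614.Kac
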