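import Pool.Agent.H614.Kac.Defs

set_option autoImplicit false
open MeasureTheory ProbabilityTheory

namespace Pool.Agent.H614.Kac

theorem measurable_lin' (M : ℕ) (w : ℕ → ℝ) : Measurable (lin M w) := by
  unfold lin
  fun_prop

/-- `Z w = exp (⟨w, ω⟩ - |w|²/2)`. -/
noncomputable def ZZ (M : ℕ) (w ω : ℕ → ℝ) : ℝ :=
  Real.exp (lin M w ω - (∑ k ∈ Finset.range M, w k ^ 2) / 2)

theorem measurable_ZZ (M : ℕ) (w : ℕ → ℝ) : Measurable (ZZ M w) := by
  unfold ZZ
  exact Real.measurable_exp.comp ((measurable_lin' M w).sub_const _)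

theorem ZZ_pos (M : ℕ) (w ω : ℕ → ℝ) : 0 < ZZ M w ω := Real.exp_pos _

theorem ZZ_mul (M : ℕ) (u v ω : ℕ → ℝ) :
    ZZ M u ω * ZZ M v ω
      = Real.exp (∑ k ∈ Finset.range M, u k * v k) * ZZ M (u + v) ω := by
  unfold ZZ
  rw [← Real.exp_add, ← Real.exp_add]
  congr 1
  have h1 : lin M (u + v) ω = lin M u ω + lin M v ω := by
    unfold lin
    rw [← Finset.sum_add_distrib]
    exact Finset.sum_congr rfl fun k _ => by simp [add_mul]
  have h2 : ∑ k ∈ Finset.range M, (u + v) k ^ 2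
      = (∑ k ∈ Finset.range M, u k ^ 2) + (∑ k ∈ Finset.range M, v k ^ 2)
        + 2 * ∑ k ∈ Finset.range M, u k * v k := by
    rw [Finset.mul_sum, ← Finset.sum_add_distrib, ← Finset.sum_add_distrib]
    exact Finset.sum_congr rfl fun k _ => by simp only [Pi.add_apply]; ring
  rw [h1, h2]
  ring

theorem lintegral_ZZ_mul (hs : S_shift) (M : ℕ) (u v : ℕ → ℝ)
    (hu : ∀ k, M ≤ k → u k = 0) (hv : ∀ k, M ≤ k → v k = 0) :
    ∫⁻ ω, ENNReal.ofReal (ZZ M u ω) * ENNReal.ofReal (ZZ M v ω) ∂mu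
      = ENNReal.ofReal (Real.exp (∑ k ∈ Finset.range M, u k * v k)) := by
  have h1 : ∀ ω, ENNReal.ofReal (ZZ M u ω) * ENNReal.ofReal (ZZ M v ω)
      = ENNReal.ofReal (Real.exp (∑ k ∈ Finset.range M, u k * v k))
        * ENNReal.ofReal (ZZ M (u + v) ω) := by
    intro ω
    rw [← ENNReal.ofReal_mul (ZZ_pos _ _ _).le, ZZ_mul, ENNReal.ofReal_mul (Real.exp_pos _).le]
  simp_rw [h1]
  rw [lintegral_const_mul _ (measurable_ZZ _ _).ennreal_ofReal]
  have h2 := hs M (u + v) (fun k hk => by simp [hu k hk, hv k hk]) Set.univ MeasurableSet.univ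
  have h3 : ∫⁻ ω, ENNReal.ofReal (ZZ M (u + v) ω) ∂mu = 1 := by
    rw [← setLIntegral_univ]
    unfold ZZ
    rw [h2]
    simp
  rw [h3, mul_one]

theorem second (hs : S_shift) : S_second := by
  intro M K h H p S h0 hH horth hK hexp hp hS hpi
  have hK' : (0 : ℝ) < K := by exact_mod_cast hK
  -- the sum of the densities
  set F : (ℕ → ℝ) → ENNReal := fun ω =>
    ∑ i ∈ Finset.range K, ENNReal.ofReal (ZZ M (h i) ω) with hF
  have hFm : Measurable F := by
    rw [hF]
    exact Finset.measurable_sum _ fun i _ => (measurable_ZZ _ _).ennreal_ofReal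
  -- second moment
  have hsq : ∫⁻ ω, F ω ^ 2 ∂mu ≤ ENNReal.ofReal (2 * (K : ℝ) ^ 2) := by
    have e1 : ∀ ω, F ω ^ 2 = ∑ i ∈ Finset.range K, ∑ j ∈ Finset.range K,
        ENNReal.ofReal (ZZ M (h i) ω) * ENNReal.ofReal (ZZ M (h j) ω) := by
      intro ω
      rw [hF, sq, Finset.sum_mul_sum]
    simp_rw [e1]
    have hmm : ∀ i j : ℕ, Measurable (fun ω : ℕ → ℝ =>
        ENNReal.ofReal (ZZ M (h i) ω) * ENNReal.ofReal (ZZ M (h j) ω)) := fun i j =>
      (measurable_ZZ _ _).ennreal_ofReal.mul (measurable_ZZ _ _).ennreal_ofReal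
    rw [lintegral_finsetSum _ (fun i _ => Finset.measurable_sum _ fun j _ => hmm i j)]
    have e2 : ∀ i ∈ Finset.range K, ∫⁻ ω, ∑ j ∈ Finset.range K,
        ENNReal.ofReal (ZZ M (h i) ω) * ENNReal.ofReal (ZZ M (h j) ω) ∂mu
          ≤ ENNReal.ofReal (2 * K) := by
      intro i hi
      rw [lintegral_finsetSum _ (fun j _ => hmm i j)]
      simp_rw [lintegral_ZZ_mul hs M (h i) _ (h0 i) (h0 _)]
      rw [← ENNReal.ofReal_sum_of_nonneg (fun j _ => (Real.exp_pos _).le)]
      apply ENNReal.ofReal_le_ofReal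
      rw [← Finset.add_sum_erase _ _ hi]
      have a1 : Real.exp (∑ k ∈ Finset.range M, h i k * h i k) ≤ K := by
        refine le_trans (Real.exp_le_exp.2 ?_) hexp
        refine le_trans (le_of_eq ?_) (hH i (Finset.mem_range.1 hi))
        exact Finset.sum_congr rfl fun k _ => by ring
      have a2 : ∑ j ∈ (Finset.range K).erase i,
          Real.exp (∑ k ∈ Finset.range M, h i k * h j k) ≤ K := by
        have : ∀ j ∈ (Finset.range K).erase i,
            Real.exp (∑ k ∈ Finset.range M, h i k * h j k) = 1 := by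
          intro j hj
          rw [Finset.mem_erase] at hj
          rw [horth i (Finset.mem_range.1 hi) j (Finset.mem_range.1 hj.2) (Ne.symm hj.1),
            Real.exp_zero]
        rw [Finset.sum_congr rfl this, Finset.sum_const, nsmul_eq_mul, mul_one]
        have := Finset.card_erase_le (s := Finset.range K) (a := i)
        rw [Finset.card_range] at this
        exact_mod_cast this
      linarith
    refine le_trans (Finset.sum_le_sum e2) ?_
    rw [Finset.sum_const, Finset.card_range, nsmul_eq_mul, ← ENNReal.ofReal_natCast,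
      ← ENNReal.ofReal_mul (Nat.cast_nonneg _)]
    apply le_of_eq
    congr 1
    ring
  -- first moment on S
  have hfirst : ENNReal.ofReal (K * p) ≤ ∫⁻ ω in S, F ω ∂mu := by
    rw [hF]
    simp only
    rw [lintegral_finsetSum _ (fun i _ => (measurable_ZZ _ _).ennreal_ofReal)]
    have e3 : ∀ i ∈ Finset.range K, ENNReal.ofReal p
        ≤ ∫⁻ ω in S, ENNReal.ofReal (ZZ M (h i) ω) ∂mu := by
      intro i hi
      unfold ZZ
      rw [hs M (h i) (h0 i) S hS]
      have := hpi i (Finset.mem_range.1 hi)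
      exact ENNReal.ofReal_le_of_le_toReal this
    refine le_trans (le_of_eq ?_) (Finset.sum_le_sum e3)
    rw [Finset.sum_const, Finset.card_range, nsmul_eq_mul, ← ENNReal.ofReal_natCast,
      ← ENNReal.ofReal_mul (Nat.cast_nonneg _)]
  -- Cauchy-Schwarz
  have hcs : (∫⁻ ω in S, F ω ∂mu) ^ 2 ≤ (∫⁻ ω, F ω ^ 2 ∂mu) * mu S := by
    have hc := ENNReal.lintegral_mul_le_Lp_mul_Lq mu (p := 2) (q := 2)
      Real.HolderConjugate.two_two (f := F) (g := S.indicator (1 : (ℕ → ℝ) → ENNReal)) hFm.aemeasurable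
      (measurable_one.indicator hS).aemeasurable
    have e4 : ∫⁻ ω, (F * S.indicator (1 : (ℕ → ℝ) → ENNReal)) ω ∂mu = ∫⁻ ω in S, F ω ∂mu := by
      rw [← lintegral_indicator hS]
      congr 1
      ext ω
      by_cases hω : ω ∈ S <;> simp [hω]
    have e5 : ∫⁻ ω, (S.indicator (1 : (ℕ → ℝ) → ENNReal)) ω ^ (2 : ℝ) ∂mu = mu S := by
      have : ∀ ω, (S.indicator (1 : (ℕ → ℝ) → ENNReal)) ω ^ (2 : ℝ) = S.indicator 1 ω := by
        intro ω
        by_cases hω : ω ∈ S <;> simp [hω]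
      simp_rw [this]
      rw [lintegral_indicator hS]
      simp
    rw [e4, e5] at hc
    have e6 : ∀ x : ENNReal, (x ^ (1 / (2 : ℝ))) ^ 2 = x := by
      intro x
      rw [← ENNReal.rpow_natCast, ← ENNReal.rpow_mul]
      norm_num
    calc (∫⁻ ω in S, F ω ∂mu) ^ 2
        ≤ ((∫⁻ ω, F ω ^ (2 : ℝ) ∂mu) ^ (1 / (2 : ℝ)) * mu S ^ (1 / (2 : ℝ))) ^ 2 :=
          pow_le_pow_left₀ zero_le hc 2
      _ = (∫⁻ ω, F ω ^ 2 ∂mu) * mu S := by
          rw [mul_pow, e6, e6]
          congr 2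
          ext ω
          rw [← ENNReal.rpow_natCast]
          norm_num
  -- conclusion
  have hfin : ENNReal.ofReal ((K * p) ^ 2) ≤ ENNReal.ofReal (2 * (K : ℝ) ^ 2 * mu.real S) := by
    calc ENNReal.ofReal ((K * p) ^ 2) = (ENNReal.ofReal (K * p)) ^ 2 := by
          rw [ENNReal.ofReal_pow (by positivity)]
      _ ≤ (∫⁻ ω in S, F ω ∂mu) ^ 2 := pow_le_pow_left₀ zero_le hfirst 2
      _ ≤ (∫⁻ ω, F ω ^ 2 ∂mu) * mu S := hcs
      _ ≤ ENNReal.ofReal (2 * (K : ℝ) ^ 2) * mu S := by gcongr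
      _ = ENNReal.ofReal (2 * (K : ℝ) ^ 2 * mu.real S) := by
          rw [ENNReal.ofReal_mul (p := 2 * (K : ℝ) ^ 2) (by positivity), ofReal_measureReal]
  have hfin' := (ENNReal.ofReal_le_ofReal_iff (by positivity)).1 hfin
  have hK2 : (0 : ℝ) < (K : ℝ) ^ 2 := by positivity
  have : (K : ℝ) ^ 2 * p ^ 2 ≤ (K : ℝ) ^ 2 * (2 * mu.real S) := by nlinarith
  have := le_of_mul_le_mul_left this hK2
  linarith

end Pool.Agent.H614.Kac
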