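import Mathlib
import Pool.Agent.H614.Kac.Defs

/-!
# The Cameron-Martin identity for finitely many coordinates
-/

set_option autoImplicit false
open MeasureTheory ProbabilityTheory

namespace Pool.Agent.H614.Kac

/-- The one dimensional density. -/
noncomputable def shZ (a x : ℝ) : ENNReal := ENNReal.ofReal (Real.exp (a * x - a ^ 2 / 2))

theorem shZ_meas (a : ℝ) : Measurable (shZ a) := by
  unfold shZ
  fun_prop

theorem shZ_zero (x : ℝ) : shZ 0 x = 1 := by
  simp [shZ]

theorem shZ_set (a : ℝ) (t : Set ℝ) (ht : MeasurableSet t) :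
    ∫⁻ x in t, shZ a x ∂(gaussianReal 0 1) = gaussianReal a 1 t := by
  rw [gaussianReal_apply a one_ne_zero, gaussianReal_of_var_ne_zero 0 one_ne_zero,
    setLIntegral_withDensity_eq_setLIntegral_mul _ (measurable_gaussianPDF 0 1) (shZ_meas a) ht]
  refine setLIntegral_congr_fun ht fun x _ => ?_
  simp only [Pi.mul_apply, shZ, gaussianPDF]
  rw [← ENNReal.ofReal_mul (gaussianPDFReal_nonneg _ _ _)]
  congr 1
  simp only [gaussianPDFReal]
  rw [mul_assoc, ← Real.exp_add]
  congr 2
  simp only [NNReal.coe_one]
  ring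

theorem shZ_prod (M : ℕ) (h ω : ℕ → ℝ) :
    ENNReal.ofReal (Real.exp (lin M h ω - (∑ k ∈ Finset.range M, h k ^ 2) / 2)) =
      ∏ k ∈ Finset.range M, shZ (h k) (ω k) := by
  have h1 : lin M h ω - (∑ k ∈ Finset.range M, h k ^ 2) / 2 =
      ∑ k ∈ Finset.range M, (h k * ω k - h k ^ 2 / 2) := by
    rw [Finset.sum_sub_distrib, lin, Finset.sum_div]
  rw [h1, Real.exp_sum, ENNReal.ofReal_prod_of_nonneg fun i _ => (Real.exp_pos _).le]
  rfl

theorem shift_left (M : ℕ) (h : ℕ → ℝ) (hM : ∀ k, M ≤ k → h k = 0) :
    mu.withDensity (fun ω => ∏ k ∈ Finset.range M, shZ (h k) (ω k)) =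
      Measure.infinitePi (fun k => gaussianReal (h k) 1) := by
  classical
  refine Measure.eq_infinitePi _ fun s t ht => ?_
  have hbox : MeasurableSet ((s : Set ℕ).pi t) := .pi s.countable_toSet fun _ _ => ht _
  rw [withDensity_apply _ hbox, ← lintegral_indicator hbox]
  -- the integrand as a product
  set F : ℕ → ℝ → ENNReal := fun k x => (if k ∈ s then (t k).indicator (shZ (h k)) x
    else shZ (h k) x) with hF
  have hFm : ∀ k, Measurable (F k) := by
    intro k
    by_cases hk : k ∈ s
    · simp only [hF, if_pos hk]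
      exact (shZ_meas _).indicator (ht k)
    · simp only [hF, if_neg hk]
      exact shZ_meas _
  have h1 : ∀ ω : ℕ → ℝ, ((s : Set ℕ).pi t).indicator
      (fun ω => ∏ k ∈ Finset.range M, shZ (h k) (ω k)) ω =
      ∏ k ∈ s ∪ Finset.range M, F k (ω k) := by
    intro ω
    by_cases hω : ω ∈ (s : Set ℕ).pi t
    · rw [Set.indicator_of_mem hω]
      rw [← Finset.prod_subset (Finset.subset_union_right (s₁ := s) (s₂ := Finset.range M))]
      · refine Finset.prod_congr rfl fun k _ => ?_
        by_cases hk : k ∈ s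
        · simp only [hF, if_pos hk]
          rw [Set.indicator_of_mem (hω k hk)]
        · simp only [hF, if_neg hk]
      · intro k hk hk'
        have h2 : h k = 0 := hM k (by simpa using hk')
        have hks : k ∈ s := by
          rcases Finset.mem_union.mp hk with h3 | h3
          · exact h3
          · exact absurd h3 hk'
        simp only [hF, if_pos hks]
        rw [Set.indicator_of_mem (hω k hks), h2, shZ_zero]
    · rw [Set.indicator_of_notMem hω]
      have h2 : ∃ k ∈ s, ω k ∉ t k := by
        by_contra hcon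
        push Not at hcon
        exact hω fun k hk => hcon k hk
      obtain ⟨k, hk, hk'⟩ := h2
      symm
      refine Finset.prod_eq_zero (Finset.mem_union_left _ hk) ?_
      simp only [hF, if_pos hk]
      rw [Set.indicator_of_notMem hk']
  have hind : iIndepFun (fun k (ω : ℕ → ℝ) => F k (ω k)) mu := iIndepFun_infinitePi hFm
  rw [lintegral_congr h1, lintegral_prod_eq_prod_lintegral_of_indepFun _ _ hind
    (fun k => (hFm k).comp (measurable_pi_apply k))]
  have h3 : ∀ k, ∫⁻ ω, F k (ω k) ∂mu = ∫⁻ x, F k x ∂(gaussianReal 0 1) := by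
    intro k
    have h4 := (measurePreserving_eval_infinitePi (fun _ : ℕ => gaussianReal 0 1) k)
    exact h4.lintegral_comp (hFm k)
  rw [Finset.prod_congr rfl fun k _ => h3 k]
  rw [← Finset.prod_subset (Finset.subset_union_left (s₁ := s) (s₂ := Finset.range M))]
  · refine Finset.prod_congr rfl fun k hk => ?_
    simp only [hF, if_pos hk]
    rw [lintegral_indicator (ht k), shZ_set _ _ (ht k)]
  · intro k _ hk
    simp only [hF, if_neg hk]
    have h5 := shZ_set (h k) Set.univ MeasurableSet.univ
    rw [setLIntegral_univ] at h5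
    rw [h5, measure_univ]

theorem shift_right (h : ℕ → ℝ) :
    mu.map (fun ω => ω + h) = Measure.infinitePi (fun k => gaussianReal (h k) 1) := by
  have h1 : (fun ω : ℕ → ℝ => ω + h) = fun ω k => (fun x : ℝ => x + h k) (ω k) := rfl
  have h2 := Measure.infinitePi_map_pi (fun _ : ℕ => gaussianReal 0 1)
    (f := fun k x => x + h k) (fun k => measurable_id.add_const _)
  rw [h1]
  unfold mu
  rw [h2]
  congr 1
  funext k
  rw [gaussianReal_map_add_const, zero_add]

theorem shift : S_shift := by
  intro M h hM S hS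
  have h1 : ∫⁻ ω in S, ENNReal.ofReal
      (Real.exp (lin M h ω - (∑ k ∈ Finset.range M, h k ^ 2) / 2)) ∂mu =
      (mu.withDensity (fun ω => ∏ k ∈ Finset.range M, shZ (h k) (ω k))) S := by
    rw [withDensity_apply _ hS]
    exact lintegral_congr fun ω => shZ_prod M h ω
  rw [h1, shift_left M h hM, ← shift_right, Measure.map_apply (by fun_prop) hS]
  rfl

end Pool.Agent.H614.Kac
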