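import Mathlib
import Pool.Agent.H614.Kac.Moment
import Pool.Agent.H614.Kac.Roots
import Pool.Agent.H614.Kac.Plant
import Pool.Agent.H614.Kac.Shift
import Pool.Agent.H614.Kac.Pair
import Pool.Agent.H614.Kac.Second

set_option autoImplicit false
open MeasureTheory ProbabilityTheory Finset Filter

namespace Pool.Agent.H614.Kac

/-- degrees of the disjoint blocks -/
def nn (s i : ℕ) : ℕ := 64 ^ (8040 * s) + i * (2 * 64 ^ (20 * s))

lemma nn_low (s i : ℕ) : 64 ^ (8040 * s) ≤ nn s i := Nat.le_add_right _ _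

lemma nn_high (s i : ℕ) (hs : 1 ≤ s) (hi : i < 64 ^ (8000 * s)) :
    nn s i ≤ 2 * 64 ^ (8040 * s) := by
  unfold nn
  have h1 : i * (2 * 64 ^ (20 * s)) ≤ 64 ^ (8040 * s) := by
    calc i * (2 * 64 ^ (20 * s)) ≤ 64 ^ (8000 * s) * (64 ^ (20 * s) * 64 ^ (20 * s)) := by
          apply Nat.mul_le_mul hi.le
          apply Nat.mul_le_mul_right
          calc 2 ≤ 64 ^ 1 := by norm_num
            _ ≤ 64 ^ (20 * s) := Nat.pow_le_pow_right (by norm_num) (by omega)
      _ = 64 ^ (8040 * s) := by rw [← pow_add, ← pow_add]; congr 1; ring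
  omega

lemma nn_block (s i : ℕ) (hs : 1 ≤ s) : 2 * 64 ^ (20 * s) ≤ nn s i := by
  refine le_trans ?_ (nn_low s i)
  calc 2 * 64 ^ (20 * s) ≤ 64 * 64 ^ (20 * s) := Nat.mul_le_mul_right _ (by norm_num)
    _ = 64 ^ (20 * s + 1) := by rw [pow_succ]; ring
    _ ≤ 64 ^ (8040 * s) := Nat.pow_le_pow_right (by norm_num) (by omega)

lemma sh_sq (n J M : ℕ) (hn : 2 * 64 ^ J ≤ n) (hM : n < M) :
    ∑ k ∈ range M, sh n (plant 40 J) k ^ 2 = 1600 * J := by
  have h1 : ∑ k ∈ range (n + 1), sh n (plant 40 J) k ^ 2 = ∑ k ∈ range M, sh n (plant 40 J) k ^ 2 := by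
    apply sum_subset (range_subset_range.mpr hM)
    intro k _ hk
    rw [mem_range, not_lt] at hk
    unfold sh
    rw [if_neg (by omega)]
    norm_num
  rw [← h1]
  have h2 := plant_sq 40 J (n + 1) (by omega)
  rw [← refl_sum n (fun j => plant 40 J j ^ 2)] at h2
  rw [show (1600 : ℝ) * J = 40 ^ 2 * J by norm_num, ← h2]
  apply sum_congr rfl
  intro k hk
  rw [mem_range] at hk
  unfold sh
  rw [if_pos (by omega)]

lemma sh_zero (n J M k : ℕ) (hM : n < M) (hk : M ≤ k) : sh n (plant 40 J) k = 0 := by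
  unfold sh
  rw [if_neg (by omega)]

lemma sh_orth (s i j M : ℕ) (hij : i ≠ j) :
    ∑ k ∈ range M, sh (nn s i) (plant 40 (20 * s)) k * sh (nn s j) (plant 40 (20 * s)) k = 0 := by
  have aux : ∀ i j : ℕ, i < j → ∀ k, sh (nn s i) (plant 40 (20 * s)) k *
      sh (nn s j) (plant 40 (20 * s)) k = 0 := by
    intro i j hij k
    unfold sh
    by_cases h1 : k ≤ nn s i
    · have h2 : nn s i + 2 * 64 ^ (20 * s) ≤ nn s j := by
        unfold nn
        have : (i + 1) * (2 * 64 ^ (20 * s)) ≤ j * (2 * 64 ^ (20 * s)) :=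
          Nat.mul_le_mul_right _ hij
        rw [Nat.add_mul, one_mul] at this
        omega
      have h3 : plant 40 (20 * s) (nn s j - k) = 0 := plant_zero _ _ _ (by omega)
      rw [if_pos (show k ≤ nn s j by omega), h3, mul_zero]
    · rw [if_neg h1, zero_mul]
  apply sum_eq_zero
  intro k _
  rcases lt_or_gt_of_ne hij with h | h
  · exact aux i j h k
  · rw [mul_comm]; exact aux j i h k

lemma exp_bound (s : ℕ) : Real.exp (32000 * s) ≤ ((64 ^ (8000 * s) : ℕ) : ℝ) := by
  have h1 : Real.exp 4 ≤ 64 := by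
    have h := Real.exp_one_lt_d9
    have h0 := Real.exp_pos 1
    have : Real.exp 4 = Real.exp 1 ^ 4 := by rw [← Real.exp_nat_mul]; norm_num
    rw [this]
    calc Real.exp 1 ^ 4 ≤ (2.72 : ℝ) ^ 4 := pow_le_pow_left₀ h0.le (by linarith) 4
      _ ≤ 64 := by norm_num
  calc Real.exp (32000 * s) = Real.exp 4 ^ (8000 * s) := by
        rw [← Real.exp_nat_mul]; congr 1; push_cast; ring
    _ ≤ 64 ^ (8000 * s) := pow_le_pow_left₀ (Real.exp_pos _).le h1 _
    _ = _ := by push_cast; rfl

/-- the event that some degree of level `s` has many sign changes -/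
def badSet (a : ℕ) (a' b : ℕ → ℕ) (s : ℕ) : Set (ℕ → ℝ) :=
  {ω | ∃ i < 64 ^ (8000 * s), (s : ℝ) * (32160 * lam + 1) <
    (SC (nn s i) ω (gy qq) gz a (a' s) (b s) 1 (20 * s) : ℝ)}

lemma measurable_badSet (a : ℕ) (a' b : ℕ → ℕ) (s : ℕ) : MeasurableSet (badSet a a' b s) := by
  have : badSet a a' b s = ⋃ i ∈ Set.Iio (64 ^ (8000 * s)),
      {ω : ℕ → ℝ | (s : ℝ) * (32160 * lam + 1) <
        (SC (nn s i) ω (gy qq) gz a (a' s) (b s) 1 (20 * s) : ℝ)} := by
    ext ω
    simp [badSet]
  rw [this]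
  exact MeasurableSet.biUnion (Set.to_countable _) fun i _ =>
    measurableSet_lt measurable_const (measurable_SC _ _ _ _ _ _ _ _)

/-- the number of real roots -/
noncomputable def NR (n : ℕ) (ω : ℕ → ℝ) : ℕ :=
  (∑ i ∈ range (n + 1), Polynomial.C (ω i) * Polynomial.X ^ i).roots.card

/-- almost sure convergence fails -/
theorem not_ae : ¬ ∀ᵐ ω ∂mu, Tendsto (fun n : ℕ => (NR n ω : ℝ) / Real.log n) atTop
    (nhds (2 / Real.pi)) := by
  intro H
  obtain ⟨a, p0, hp0, hev⟩ := first pair plant_abs plant_neg plant_pos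
    (fun M w t ht => cheb M w ht)
  obtain ⟨s0, hs0⟩ := eventually_atTop.mp hev
  choose! a' b haa hz hmain using hs0
  -- lower bound for the measure of the bad sets
  have hlow : ∀ s, s0 ≤ s → 1 ≤ s → p0 ^ 2 / 2 ≤ mu.real (badSet a a' b s) := by
    intro s hs hs1
    refine second shift (2 * 64 ^ (8040 * s) + 1) (64 ^ (8000 * s))
      (fun i => if i < 64 ^ (8000 * s) then sh (nn s i) (plant 40 (20 * s)) else 0)
      (32000 * s) p0 _ ?_ ?_ ?_ (by positivity) (exp_bound s) hp0.le
      (measurable_badSet a a' b s) ?_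
    · intro i k hk
      by_cases hi : i < 64 ^ (8000 * s)
      · simp only [if_pos hi]
        have := nn_high s i hs1 hi
        exact sh_zero _ _ _ _ (by omega : nn s i < 2 * 64 ^ (8040 * s) + 1) hk
      · simp only [if_neg hi]
        rfl
    · intro i hi
      simp only [if_pos hi]
      have := nn_high s i hs1 hi
      rw [sh_sq _ _ _ (nn_block s i hs1) (by omega)]
      push_cast
      linarith
    · intro i hi j hj hij
      simp only [if_pos hi, if_pos hj]
      exact sh_orth s i j _ hij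
    · intro i hi
      simp only [if_pos hi]
      refine le_trans (hmain s hs (nn s i) (nn_low s i)) ?_
      refine measureReal_mono ?_ (measure_ne_top _ _)
      intro ω hω
      exact ⟨i, hi, hω⟩
  -- the bad sets eventually do not occur
  have hzero : ∀ᵐ ω ∂mu, ∀ᶠ s in atTop, ω ∈ badSet a a' b s ↔ ω ∈ (∅ : Set (ℕ → ℝ)) := by
    filter_upwards [H] with ω hω
    have hlt : (2 / Real.pi) < 2 / Real.pi + 1 / 100000 := by linarith
    obtain ⟨n0, hn0⟩ := eventually_atTop.mp (hω.eventually (gt_mem_nhds hlt))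
    filter_upwards [eventually_ge_atTop s0, eventually_ge_atTop 1, eventually_ge_atTop n0]
      with s hs hs1 hsn
    simp only [Set.mem_empty_iff_false, iff_false]
    rintro ⟨i, hi, hi2⟩
    have hN : s < 64 ^ (8040 * s) := lt_of_lt_of_le (Nat.lt_pow_self (by norm_num : 1 < 64))
      (Nat.pow_le_pow_right (by norm_num) (by omega))
    have hnn := nn_low s i
    have hnn2 := nn_high s i hs1 hi
    have hroots := roots (nn s i) ω (gy qq) gz a (a' s) (b s) 1 (20 * s)
      (gy_strictMono qq_pos qq_lt_one) (gy_pos qq_pos qq_lt_one) (gy_lt_one qq_pos qq_lt_one)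
      gz_strictMono gz_pos (hz s hs) (haa s hs)
    have hr : (SC (nn s i) ω (gy qq) gz a (a' s) (b s) 1 (20 * s) : ℝ) ≤ (NR (nn s i) ω : ℝ) := by
      exact_mod_cast hroots
    have hf := hn0 (nn s i) (by omega)
    have hn2 : (1 : ℝ) < (nn s i : ℝ) := by
      have : 1 < nn s i := by omega
      exact_mod_cast this
    have hlog : 0 < Real.log (nn s i) := Real.log_pos hn2
    rw [div_lt_iff₀ hlog] at hf
    have hs1' : (1 : ℝ) ≤ s := by exact_mod_cast hs1
    have hlog2 : Real.log (nn s i) ≤ Real.log 2 + 8040 * s * Real.log 64 := by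
      have h1 : (nn s i : ℝ) ≤ 2 * 64 ^ (8040 * s) := by exact_mod_cast hnn2
      have h2 := Real.log_le_log (by linarith) h1
      rw [Real.log_mul (by norm_num) (by positivity), Real.log_pow] at h2
      push_cast at h2
      linarith
    have hπ := Real.pi_pos
    have hπ3 := Real.pi_gt_three
    have hlam : 2 / Real.pi * Real.log 64 = 4 * lam := by
      unfold lam; field_simp; norm_num
    have h2π : 2 / Real.pi ≤ 2 / 3 := div_le_div_of_nonneg_left (by norm_num) (by norm_num) hπ3.le
    have hl2 := Real.log_two_lt_d9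
    have hl2' : 0 < Real.log 2 := Real.log_pos (by norm_num)
    have hl64 := log64
    have c0 : 0 < 2 / Real.pi := by positivity
    have hA : (2 / Real.pi + 1 / 100000) * Real.log (nn s i) ≤
        (2 / Real.pi + 1 / 100000) * (Real.log 2 + 8040 * s * Real.log 64) :=
      mul_le_mul_of_nonneg_left hlog2 (by linarith)
    have hB : (2 / Real.pi + 1 / 100000) * (Real.log 2 + 8040 * s * Real.log 64)
        = 2 / Real.pi * Real.log 2 + 8040 * s * (2 / Real.pi * Real.log 64)
          + 1 / 100000 * Real.log 2 + 8040 / 100000 * s * Real.log 64 := by ring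
    have hC : 2 / Real.pi * Real.log 2 ≤ 2 / 3 * Real.log 2 :=
      mul_le_mul_of_nonneg_right h2π hl2'.le
    have hD : (s : ℝ) * Real.log 64 ≤ s * (4.16 : ℝ) :=
      mul_le_mul_of_nonneg_left (by rw [hl64]; linarith) (by linarith)
    rw [hlam] at hB
    nlinarith
  have hlim := tendsto_measure_of_ae_tendsto_indicator_of_isFiniteMeasure (μ := mu) atTop
    MeasurableSet.empty (measurable_badSet a a' b) hzero
  rw [measure_empty] at hlim
  have hlim2 : Tendsto (fun s => mu.real (badSet a a' b s)) atTop (nhds 0) := by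
    have := (ENNReal.tendsto_toReal ENNReal.zero_ne_top).comp hlim
    simpa [Measure.real, Function.comp_def] using this
  have hpos : (0 : ℝ) < p0 ^ 2 / 2 := by positivity
  obtain ⟨s, h1, h2, h3⟩ := ((hlim2.eventually (gt_mem_nhds hpos)).and
    ((eventually_ge_atTop s0).and (eventually_ge_atTop 1))).exists
  linarith [hlow s h2 h3]

end Pool.Agent.H614.Kac
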